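import Mathlib

set_option autoImplicit false

/-! Number of the zeros of a holomorphic function in a small disc. -/

namespace Pool.Agent.V8H35.LV

open Complex Metric Set

theorem zeros_aux (c : ℂ) (r R R1 : ℝ) (hr : 0 < r) (h3 : 3 * r ≤ R) (hRR : R < R1) :
    ∀ (n : ℕ) (f : ℂ → ℂ) (M : ℝ) (Z : Finset ℂ), Z.card = n → DifferentiableOn ℂ f (ball c R1) →
      (∀ z ∈ sphere c R, ‖f z‖ ≤ M) → (∀ ρ ∈ Z, ‖ρ - c‖ ≤ r ∧ f ρ = 0) → ‖f c‖ ≤ M * (1 / 2) ^ n := by
  have hR0 : 0 < R := by linarith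
  intro n
  induction n with
  | zero =>
    intro f M Z _ hf hM _
    rw [pow_zero, mul_one]
    have hsub : closedBall c R ⊆ ball c R1 := closedBall_subset_ball hRR
    have hd : DiffContOnCl ℂ f (ball c R) := by
      apply DifferentiableOn.diffContOnCl
      rw [closure_ball c hR0.ne']
      exact hf.mono hsub
    refine Complex.norm_le_of_forall_mem_frontier_norm_le isBounded_ball hd ?_ ?_
    · intro z hz
      rw [frontier_ball c hR0.ne'] at hz
      exact hM z hz
    · rw [closure_ball c hR0.ne']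
      exact mem_closedBall_self hR0.le
  | succ n ih =>
    intro f M Z hZ hf hM hz
    have hne : Z.Nonempty := by
      rw [← Finset.card_pos, hZ]; omega
    obtain ⟨ρ, hρ⟩ := hne
    obtain ⟨h1, h2⟩ := hz ρ hρ
    have hmem : ρ ∈ ball c R1 := by
      rw [mem_ball, dist_eq_norm]; linarith
    have hg : DifferentiableOn ℂ (dslope f ρ) (ball c R1) :=
      (Complex.differentiableOn_dslope (isOpen_ball.mem_nhds hmem)).2 hf
    have key := ih (dslope f ρ) (M / (R - r)) (Z.erase ρ) (by
      rw [Finset.card_erase_of_mem hρ, hZ]; omega) hg ?_ ?_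
    · have e : (c - ρ) * dslope f ρ c = f c - f ρ := by
        have := sub_smul_dslope f ρ c
        rwa [smul_eq_mul] at this
      rw [h2, sub_zero] at e
      rw [← e, norm_mul]
      have h4 : ‖c - ρ‖ ≤ r := by rw [norm_sub_rev]; exact h1
      have hM0 : 0 ≤ M := by
        refine (norm_nonneg _).trans (hM (c + R) ?_)
        rw [mem_sphere, dist_eq_norm, add_sub_cancel_left, Complex.norm_real, Real.norm_of_nonneg hR0.le]
      have h5 : 0 < R - r := by linarith
      have h6 : r * (M / (R - r)) ≤ M * (1 / 2) := by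
        rw [mul_div_assoc', div_le_iff₀ h5]
        nlinarith
      calc ‖c - ρ‖ * ‖dslope f ρ c‖ ≤ r * (M / (R - r) * (1 / 2) ^ n) := by
            gcongr
        _ = r * (M / (R - r)) * (1 / 2) ^ n := by ring
        _ ≤ M * (1 / 2) * (1 / 2) ^ n := by gcongr
        _ = M * (1 / 2) ^ (n + 1) := by ring
    · intro z hz'
      have h5 : R - r ≤ ‖z - ρ‖ := by
        rw [mem_sphere, dist_eq_norm] at hz'
        have := norm_sub_norm_le (z - c) (ρ - c)
        rw [sub_sub_sub_cancel_right] at this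
        linarith
      have h6 : z ≠ ρ := by
        intro h
        rw [h, sub_self, norm_zero] at h5
        linarith
      rw [dslope_of_ne _ h6, slope_def_field, h2, sub_zero, norm_div]
      have := hM z hz'
      have h7 : 0 < R - r := by linarith
      have h8 : 0 ≤ ‖f z‖ := norm_nonneg _
      exact div_le_div₀ (h8.trans this) this h7 h5
    · intro ρ' hρ'
      rw [Finset.mem_erase] at hρ'
      obtain ⟨h5, h6⟩ := hz ρ' hρ'.2
      refine ⟨h5, ?_⟩
      rw [dslope_of_ne _ hρ'.1, slope_def_field, h2, h6, sub_zero, zero_div]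

/-- number of the zeros of `f` in a closed disc of radius `r`, by the values at the centre and on a
circle of radius `R ≥ 3r` -/
theorem zeros_card {c : ℂ} {r R R1 : ℝ} (hr : 0 < r) (h3 : 3 * r ≤ R) (hRR : R < R1)
    {f : ℂ → ℂ} {M : ℝ} (hf : DifferentiableOn ℂ f (ball c R1)) (hM : ∀ z ∈ sphere c R, ‖f z‖ ≤ M)
    (hc : 1 ≤ ‖f c‖) (Z : Finset ℂ) (hZ : ∀ ρ ∈ Z, ‖ρ - c‖ ≤ r ∧ f ρ = 0) :
    (Z.card : ℝ) ≤ 2 * Real.log M := by
  have h := zeros_aux c r R R1 hr h3 hRR Z.card f M Z rfl hf hM hZ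
  have h1 : (2 : ℝ) ^ Z.card ≤ M := by
    have h2 : (1 : ℝ) ≤ M * (1 / 2) ^ Z.card := hc.trans h
    rw [one_div, inv_pow, ← div_eq_mul_inv, le_div_iff₀ (by positivity), one_mul] at h2
    exact h2
  have h2 : Real.log ((2 : ℝ) ^ Z.card) ≤ Real.log M := Real.log_le_log (by positivity) h1
  rw [Real.log_pow] at h2
  have h3 := Real.log_two_gt_d9
  have h4 : (0 : ℝ) ≤ Z.card := Nat.cast_nonneg _
  nlinarith

end Pool.Agent.V8H35.LV
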