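import Mathlib

set_option autoImplicit false

/-! L1 norms on horizontal segments of the derivative of a holomorphic function. -/

namespace Pool.Agent.V8H35.LV

open Complex Metric Set MeasureTheory intervalIntegral

/-- Cauchy's bound for the derivative by the mean over a circle -/
theorem deriv_le_avg {G : ℂ → ℂ} {z : ℂ} {r : ℝ} (hr : 0 < r)
    (hG : DifferentiableOn ℂ G (closedBall z r)) :
    ‖deriv G z‖ ≤ (2 * Real.pi * r)⁻¹ * ∫ θ in (0 : ℝ)..(2 * Real.pi), ‖G (circleMap z r θ)‖ := by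
  have h1 : DiffContOnCl ℂ G (ball z r) := by
    apply DifferentiableOn.diffContOnCl
    rw [closure_ball z hr.ne']
    exact hG
  have h2 := DiffContOnCl.deriv_eq_smul_circleIntegral hr h1
  have h3 : ‖(2 * Real.pi * I : ℂ)‖ = 2 * Real.pi := by
    rw [norm_mul, norm_mul, Complex.norm_I, Complex.norm_real,
      Real.norm_of_nonneg Real.pi_pos.le, mul_one]
    norm_num
  have h4 : ‖∮ w in C(z, r), (1 / (w - z) ^ 2) • G w‖ ≤
      ∫ θ in (0 : ℝ)..(2 * Real.pi), r⁻¹ * ‖G (circleMap z r θ)‖ := by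
    unfold circleIntegral
    refine (intervalIntegral.norm_integral_le_integral_norm (by positivity)).trans (le_of_eq ?_)
    refine intervalIntegral.integral_congr fun θ _ => ?_
    have h5 : ‖circleMap z r θ - z‖ = r := by
      have := circleMap_mem_sphere z hr.le θ
      rwa [mem_sphere, dist_eq_norm] at this
    simp only [norm_smul, norm_div, norm_one, norm_pow, h5]
    rw [deriv_circleMap, norm_mul, Complex.norm_I, mul_one, norm_circleMap_zero, abs_of_pos hr]
    rw [← mul_assoc]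
    congr 1
    field_simp
  rw [intervalIntegral.integral_const_mul] at h4
  have h6 : 2 * Real.pi * ‖deriv G z‖ ≤
      r⁻¹ * ∫ θ in (0 : ℝ)..(2 * Real.pi), ‖G (circleMap z r θ)‖ := by
    calc 2 * Real.pi * ‖deriv G z‖ = ‖(2 * Real.pi * I : ℂ) • deriv G z‖ := by rw [norm_smul, h3]
      _ = ‖∮ w in C(z, r), (1 / (w - z) ^ 2) • G w‖ := by rw [h2]
      _ ≤ _ := h4
  have hpi := Real.pi_pos
  rw [mul_inv, mul_assoc, ← div_eq_inv_mul, le_div_iff₀ (by positivity), mul_comm]
  exact h6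

theorem sin_null (y r : ℝ) (hr : 0 < r) : ∀ᵐ θ : ℝ, y + r * Real.sin θ ≠ 0 := by
  by_cases h : ∃ θ₀ : ℝ, y + r * Real.sin θ₀ = 0
  · obtain ⟨θ₀, h0⟩ := h
    have hc : ({θ : ℝ | y + r * Real.sin θ = 0}).Countable := by
      have hsub : {θ : ℝ | y + r * Real.sin θ = 0} ⊆
          (range fun k : ℤ => θ₀ - 2 * k * Real.pi) ∪ (range fun k : ℤ => (2 * k + 1) * Real.pi - θ₀) := by
        intro θ hθ
        have h1 : Real.sin θ = Real.sin θ₀ := by
          have h2 : r * Real.sin θ = r * Real.sin θ₀ := by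
            have := hθ.trans h0.symm
            linarith
          exact mul_left_cancel₀ hr.ne' h2
        rw [Real.sin_eq_sin_iff] at h1
        obtain ⟨k, hk | hk⟩ := h1
        · left; exact ⟨k, by simp only; linarith⟩
        · right; exact ⟨k, by simp only; linarith⟩
      exact ((countable_range _).union (countable_range _)).mono hsub
    filter_upwards [hc.ae_notMem volume] with θ hθ h1
    exact hθ h1
  · push Not at h
    exact Filter.Eventually.of_forall h

theorem circleMap_split (x y r θ : ℝ) : circleMap ((x : ℂ) + (y : ℂ) * I) r θ =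
    ((x + r * Real.cos θ : ℝ) : ℂ) + ((y + r * Real.sin θ : ℝ) : ℂ) * I := by
  rw [circleMap, Complex.exp_mul_I]
  push_cast
  ring

/-- the L1 norm of the derivative -/
theorem deriv_L1 {G : ℂ → ℂ} {r η a b B : ℝ} (hr : 0 < r) (ha : 2 ≤ a - r) (hab : a ≤ b)
    (hG : ∀ z : ℂ, 1 ≤ z.re → DifferentiableAt ℂ G z)
    (hB : ∀ y : ℝ, |y| ≤ η → y ≠ 0 → ∫ x in (a - r)..(b + r), ‖G ((x : ℂ) + (y : ℂ) * I)‖ ≤ B)
    (y : ℝ) (hy : |y| ≤ η - r) :
    ∫ x in a..b, ‖deriv G ((x : ℂ) + (y : ℂ) * I)‖ ≤ B / r := by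
  -- pointwise
  have hpt : ∀ x ∈ Icc a b, ‖deriv G ((x : ℂ) + (y : ℂ) * I)‖ ≤
      (2 * Real.pi * r)⁻¹ * ∫ θ in (0 : ℝ)..(2 * Real.pi),
        ‖G (((x + r * Real.cos θ : ℝ) : ℂ) + ((y + r * Real.sin θ : ℝ) : ℂ) * I)‖ := by
    intro x hx
    have h1 := deriv_le_avg (G := G) (z := (x : ℂ) + (y : ℂ) * I) hr (by
      intro z hz
      refine (hG z ?_).differentiableWithinAt
      rw [mem_closedBall, dist_eq_norm] at hz
      have h2 := (abs_le.1 ((Complex.abs_re_le_norm _).trans hz)).1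
      simp at h2
      linarith [hx.1])
    simp only [circleMap_split] at h1
    exact h1
  -- continuity
  have hcont : ContinuousOn (fun p : ℝ × ℝ =>
      ‖G (((p.1 + r * Real.cos p.2 : ℝ) : ℂ) + ((y + r * Real.sin p.2 : ℝ) : ℂ) * I)‖)
      (Icc a b ×ˢ univ) := by
    intro p hp
    have h1 : ContinuousAt G (((p.1 + r * Real.cos p.2 : ℝ) : ℂ) + ((y + r * Real.sin p.2 : ℝ) : ℂ) * I) := by
      refine (hG _ ?_).continuousAt
      simp only [add_re, ofReal_re, mul_re, ofReal_im, I_re, I_im, mul_zero, mul_one, sub_self, add_zero]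
      have := Real.neg_one_le_cos p.2
      have h2 := hp.1.1
      nlinarith
    have h2 : ContinuousAt (fun p : ℝ × ℝ =>
      (((p.1 + r * Real.cos p.2 : ℝ) : ℂ) + ((y + r * Real.sin p.2 : ℝ) : ℂ) * I)) p := by fun_prop
    exact (ContinuousAt.comp (g := fun z => ‖G z‖) (f := fun p : ℝ × ℝ =>
      (((p.1 + r * Real.cos p.2 : ℝ) : ℂ) + ((y + r * Real.sin p.2 : ℝ) : ℂ) * I)) h1.norm h2).continuousWithinAt
  have hint : Integrable (Function.uncurry fun (x θ : ℝ) =>
      ‖G (((x + r * Real.cos θ : ℝ) : ℂ) + ((y + r * Real.sin θ : ℝ) : ℂ) * I)‖)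
      ((volume.restrict (Ioc a b)).prod (volume.restrict (Ioc 0 (2 * Real.pi)))) := by
    rw [Measure.prod_restrict]
    have h1 : IntegrableOn (Function.uncurry fun (x θ : ℝ) =>
      ‖G (((x + r * Real.cos θ : ℝ) : ℂ) + ((y + r * Real.sin θ : ℝ) : ℂ) * I)‖)
      (Icc a b ×ˢ Icc 0 (2 * Real.pi)) (volume.prod volume) := by
      refine ContinuousOn.integrableOn_compact (isCompact_Icc.prod isCompact_Icc) ?_
      exact hcont.mono (prod_mono le_rfl (subset_univ _))
    exact h1.mono_set (prod_mono Ioc_subset_Icc_self Ioc_subset_Icc_self)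
  have h2pi : (0 : ℝ) ≤ 2 * Real.pi := by positivity
  -- the swap
  have hswap : ∫ x in a..b, (∫ θ in (0 : ℝ)..(2 * Real.pi),
        ‖G (((x + r * Real.cos θ : ℝ) : ℂ) + ((y + r * Real.sin θ : ℝ) : ℂ) * I)‖) =
      ∫ θ in (0 : ℝ)..(2 * Real.pi), (∫ x in a..b,
        ‖G (((x + r * Real.cos θ : ℝ) : ℂ) + ((y + r * Real.sin θ : ℝ) : ℂ) * I)‖) := by
    simp only [intervalIntegral.integral_of_le hab, intervalIntegral.integral_of_le h2pi]
    exact integral_integral_swap hint
  -- inner bound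
  have hin : ∀ θ : ℝ, y + r * Real.sin θ ≠ 0 → ∫ x in a..b,
      ‖G (((x + r * Real.cos θ : ℝ) : ℂ) + ((y + r * Real.sin θ : ℝ) : ℂ) * I)‖ ≤ B := by
    intro θ hθ
    have h1 : |y + r * Real.sin θ| ≤ η := by
      have h2 : |r * Real.sin θ| ≤ r := by
        rw [abs_mul, abs_of_pos hr]
        have := Real.abs_sin_le_one θ
        nlinarith
      have := abs_add_le y (r * Real.sin θ)
      linarith
    have h3 := hB _ h1 hθ
    have h4 : ∫ x in a..b, ‖G (((x + r * Real.cos θ : ℝ) : ℂ) + ((y + r * Real.sin θ : ℝ) : ℂ) * I)‖ =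
        ∫ x in (a + r * Real.cos θ)..(b + r * Real.cos θ),
          ‖G ((x : ℂ) + ((y + r * Real.sin θ : ℝ) : ℂ) * I)‖ :=
      intervalIntegral.integral_comp_add_right
        (fun x : ℝ => ‖G ((x : ℂ) + ((y + r * Real.sin θ : ℝ) : ℂ) * I)‖) (r * Real.cos θ)
    rw [h4]
    refine le_trans ?_ h3
    have hc1 := Real.neg_one_le_cos θ
    have hc2 := Real.cos_le_one θ
    have hci : ContinuousOn (fun x : ℝ => ‖G ((x : ℂ) + ((y + r * Real.sin θ : ℝ) : ℂ) * I)‖)
        (Icc (a - r) (b + r)) := by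
      intro x hx
      have h1 : ContinuousAt G ((x : ℂ) + ((y + r * Real.sin θ : ℝ) : ℂ) * I) := by
        refine (hG _ ?_).continuousAt
        simp only [add_re, ofReal_re, mul_re, ofReal_im, I_re, I_im, mul_zero, mul_one, sub_self, add_zero]
        linarith [hx.1]
      exact (ContinuousAt.comp (g := fun z => ‖G z‖)
        (f := fun x : ℝ => ((x : ℂ) + ((y + r * Real.sin θ : ℝ) : ℂ) * I)) h1.norm
        (by fun_prop)).continuousWithinAt
    refine intervalIntegral.integral_mono_interval (by nlinarith) (by linarith) (by nlinarith)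
      (Filter.Eventually.of_forall fun x => norm_nonneg _) ?_
    refine ContinuousOn.intervalIntegrable ?_
    rwa [uIcc_of_le (by linarith)]
  have hdc : ContinuousOn (fun x : ℝ => ‖deriv G ((x : ℂ) + (y : ℂ) * I)‖) (Icc a b) := by
    have hop : IsOpen {z : ℂ | 1 < z.re} := isOpen_lt continuous_const Complex.continuous_re
    have h1 : DifferentiableOn ℂ G {z : ℂ | 1 < z.re} := fun z hz => (hG z (le_of_lt hz)).differentiableWithinAt
    have h2 := (h1.deriv hop).continuousOn
    intro x hx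
    have hm : ((x : ℂ) + (y : ℂ) * I) ∈ {z : ℂ | 1 < z.re} := by
      simp only [mem_ofPred_eq, add_re, ofReal_re, mul_re, ofReal_im, I_re, I_im, mul_zero, mul_one,
        sub_self, add_zero]
      linarith [hx.1]
    have h3 : ContinuousAt (deriv G) ((x : ℂ) + (y : ℂ) * I) := h2.continuousAt (hop.mem_nhds hm)
    exact (ContinuousAt.comp (g := fun z => ‖deriv G z‖)
        (f := fun x : ℝ => ((x : ℂ) + (y : ℂ) * I)) h3.norm (by fun_prop)).continuousWithinAt
  have hI1 : IntervalIntegrable (fun x => ∫ θ in (0 : ℝ)..(2 * Real.pi),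
        ‖G (((x + r * Real.cos θ : ℝ) : ℂ) + ((y + r * Real.sin θ : ℝ) : ℂ) * I)‖) volume a b := by
    rw [intervalIntegrable_iff_integrableOn_Ioc_of_le hab]
    simp only [intervalIntegral.integral_of_le h2pi]
    exact hint.integral_prod_left
  have hI2 : IntervalIntegrable (fun θ => ∫ x in a..b,
        ‖G (((x + r * Real.cos θ : ℝ) : ℂ) + ((y + r * Real.sin θ : ℝ) : ℂ) * I)‖) volume 0 (2 * Real.pi) := by
    rw [intervalIntegrable_iff_integrableOn_Ioc_of_le h2pi]
    simp only [intervalIntegral.integral_of_le hab]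
    exact hint.integral_prod_right
  calc ∫ x in a..b, ‖deriv G ((x : ℂ) + (y : ℂ) * I)‖
      ≤ ∫ x in a..b, (2 * Real.pi * r)⁻¹ * ∫ θ in (0 : ℝ)..(2 * Real.pi),
        ‖G (((x + r * Real.cos θ : ℝ) : ℂ) + ((y + r * Real.sin θ : ℝ) : ℂ) * I)‖ := by
        refine intervalIntegral.integral_mono_on hab ?_ (hI1.const_mul _) hpt
        refine ContinuousOn.intervalIntegrable ?_
        rwa [uIcc_of_le hab]
    _ = (2 * Real.pi * r)⁻¹ * ∫ θ in (0 : ℝ)..(2 * Real.pi), (∫ x in a..b,
        ‖G (((x + r * Real.cos θ : ℝ) : ℂ) + ((y + r * Real.sin θ : ℝ) : ℂ) * I)‖) := by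
        rw [intervalIntegral.integral_const_mul, hswap]
    _ ≤ (2 * Real.pi * r)⁻¹ * ∫ θ in (0 : ℝ)..(2 * Real.pi), B := by
        refine mul_le_mul_of_nonneg_left ?_ (by positivity)
        refine intervalIntegral.integral_mono_ae h2pi hI2 intervalIntegrable_const ?_
        filter_upwards [sin_null y r hr] with θ hθ
        exact hin θ hθ
    _ = B / r := by
        rw [intervalIntegral.integral_const, smul_eq_mul]
        have := Real.pi_pos
        field_simp
        ring

end Pool.Agent.V8H35.LV
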