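import Pool.Agent.V8H35.LV.FZ
import Pool.Agent.V8H35.LV.CT

set_option autoImplicit false

/-! Polynomial bounds for `F`, and the number of the zeros of its derivative. -/

namespace Pool.Agent.V8H35.LV

open Complex Metric Set MeasureTheory intervalIntegral

theorem zeta_poly : ∃ C : ℝ, 1 ≤ C ∧ ∀ s : ℂ, -20 ≤ s.re → 1 ≤ |s.im| → ‖riemannZeta s‖ ≤ C * |s.im| ^ 21 := by
  obtain ⟨C1, hC1, h1⟩ := Pool.Agent.H448R2.GC.X1.zeta_bdd
  obtain ⟨C2, hC2, h2⟩ := Pool.Agent.H52R4.PZT1.zeta_strip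
  obtain ⟨C3, hC3, h3⟩ := Pool.Agent.H448R2.GC.zeta_left 20
  refine ⟨1 + C1 + C2 + C3 * 2 ^ 21, by nlinarith [show (0:ℝ) < C3 * 2 ^ 21 by positivity], fun s hs hi => ?_⟩
  have hp1 : (1 : ℝ) ≤ |s.im| ^ 21 := one_le_pow₀ hi
  have hp2 : |s.im| ^ 2 ≤ |s.im| ^ 21 := pow_le_pow_right₀ hi (by norm_num)
  have hp0 : (0 : ℝ) < |s.im| ^ 21 := by linarith
  have q1 : 0 ≤ C1 * |s.im| ^ 21 := by positivity
  have q2 : 0 ≤ C2 * |s.im| ^ 21 := by positivity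
  have q3 : 0 ≤ C3 * 2 ^ 21 * |s.im| ^ 21 := by positivity
  have e : (1 + C1 + C2 + C3 * 2 ^ 21) * |s.im| ^ 21 =
    |s.im| ^ 21 + C1 * |s.im| ^ 21 + C2 * |s.im| ^ 21 + C3 * 2 ^ 21 * |s.im| ^ 21 := by ring
  rw [e]
  rcases le_or_gt (3 / 2) s.re with ha | ha
  · have := h1 s ha
    have : C1 * 1 ≤ C1 * |s.im| ^ 21 := by gcongr
    linarith
  rcases le_or_gt (-(1 / 2)) s.re with hb | hb
  · have := h2 s hb (by linarith) hi
    have : C2 * |s.im| ^ 2 ≤ C2 * |s.im| ^ 21 := by gcongr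
    linarith
  · have h4 := h3 s hs hb.le
    have h5 : (1 + |s.im|) ^ (1 / 2 - s.re) ≤ 2 ^ 21 * |s.im| ^ 21 := by
      calc (1 + |s.im|) ^ (1 / 2 - s.re) ≤ (1 + |s.im|) ^ (21 : ℝ) :=
            Real.rpow_le_rpow_of_exponent_le (by linarith) (by linarith)
        _ = (1 + |s.im|) ^ (21 : ℕ) := by
            rw [← Real.rpow_natCast]; norm_num
        _ ≤ (2 * |s.im|) ^ 21 := by gcongr; linarith
        _ = _ := by rw [mul_pow]
    have h6 : C3 * (1 + |s.im|) ^ (1 / 2 - s.re) ≤ C3 * (2 ^ 21 * |s.im| ^ 21) := by gcongr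
    linarith

theorem F_poly : ∃ C : ℝ, 1 ≤ C ∧ ∀ z : ℂ, 1 ≤ z.re → |z.im| ≤ 20 → ‖F z‖ ≤ C * z.re ^ 42 := by
  obtain ⟨C, hC, h⟩ := zeta_poly
  refine ⟨C ^ 2, one_le_pow₀ hC, fun z hz hi => ?_⟩
  obtain ⟨h1, h2⟩ := abs_le.1 hi
  have a1 := h (1 / 2 + I * z) (by simp; linarith) (by simp; rw [abs_of_pos (by linarith)]; exact hz)
  have a2 := h (1 / 2 - I * z) (by simp; linarith) (by simp; rw [abs_of_pos (by linarith)]; exact hz)
  have e1 : |(1 / 2 + I * z).im| = z.re := by simp; linarith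
  have e2 : |(1 / 2 - I * z).im| = z.re := by simp; linarith
  rw [e1] at a1
  rw [e2] at a2
  rw [F, norm_mul]
  have hz0 : 0 ≤ z.re := by linarith
  calc ‖riemannZeta (1 / 2 + I * z)‖ * ‖riemannZeta (1 / 2 - I * z)‖ ≤ (C * z.re ^ 21) * (C * z.re ^ 21) := by
        gcongr
    _ = C ^ 2 * z.re ^ 42 := by ring

theorem dF_poly : ∃ C : ℝ, 1 ≤ C ∧ ∀ z : ℂ, 2 ≤ z.re → |z.im| ≤ 19 → ‖deriv F z‖ ≤ C * z.re ^ 42 := by
  obtain ⟨C, hC, h⟩ := F_poly
  refine ⟨C * 2 ^ 42, by nlinarith, fun z hz hi => ?_⟩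
  have hb : ∀ w ∈ closedBall z 1, 1 ≤ w.re ∧ |w.im| ≤ 20 ∧ w.re ≤ z.re + 1 := by
    intro w hw
    rw [mem_closedBall, dist_eq_norm] at hw
    have h1 := abs_le.1 ((Complex.abs_re_le_norm _).trans hw)
    have h2 := abs_le.1 ((Complex.abs_im_le_norm _).trans hw)
    simp at h1 h2
    obtain ⟨h3, h4⟩ := abs_le.1 hi
    refine ⟨by linarith, abs_le.2 ⟨by linarith, by linarith⟩, by linarith⟩
  have hd : DiffContOnCl ℂ F (ball z 1) := by
    apply DifferentiableOn.diffContOnCl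
    rw [closure_ball z one_ne_zero]
    exact fun w hw => (F_diff w (hb w hw).1).differentiableWithinAt
  have h1 := Complex.norm_deriv_le_of_forall_mem_sphere_norm_le (C := C * (z.re + 1) ^ 42) one_pos hd (by
    intro w hw
    obtain ⟨h3, h4, h5⟩ := hb w (sphere_subset_closedBall hw)
    refine (h w h3 h4).trans ?_
    gcongr)
  rw [div_one] at h1
  refine h1.trans ?_
  calc C * (z.re + 1) ^ 42 ≤ C * (2 * z.re) ^ 42 := by gcongr; linarith
    _ = _ := by rw [mul_pow]; ring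

/-- lower bound for zeta to the right of two -/
theorem zeta_low (s : ℂ) (hs : 2 ≤ s.re) : 1 / 4 ≤ ‖riemannZeta s‖ := by
  have h1 : ‖riemannZeta s - 1‖ ≤ 3 / 4 := by
    rw [zeta_eq_tsum_one_div_nat_add_one_cpow (by linarith)]
    have hle : ∀ n : ℕ, ‖1 / ((n : ℂ) + 1) ^ s‖ ≤ 1 / ((n : ℝ) + 1) ^ 2 := by
      intro n
      have e : ((n : ℂ) + 1) = (((n : ℝ) + 1 : ℝ) : ℂ) := by push_cast; ring
      rw [norm_div, norm_one, e, Complex.norm_cpow_eq_rpow_re_of_pos (by positivity)]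
      have h2 : ((n : ℝ) + 1) ^ 2 ≤ ((n : ℝ) + 1) ^ s.re := by
        rw [← Real.rpow_natCast]
        exact Real.rpow_le_rpow_of_exponent_le (by linarith [(Nat.cast_nonneg n : (0:ℝ) ≤ n)])
          (by push_cast; exact hs)
      gcongr
    have hz2 := hasSum_zeta_two
    have hz3 : HasSum (fun n : ℕ => 1 / (((n : ℝ) + 1) ^ 2)) (Real.pi ^ 2 / 6) := by
      have := (hasSum_nat_add_iff (f := fun n : ℕ => 1 / ((n : ℝ) ^ 2)) (g := Real.pi ^ 2 / 6) 1).2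
        (by simpa using hz2)
      simpa using this
    have hsumm : Summable (fun n : ℕ => 1 / ((n : ℂ) + 1) ^ s) :=
      Summable.of_norm_bounded hz3.summable hle
    have e0 := hsumm.sum_add_tsum_nat_add 1
    simp only [Finset.range_one, Finset.sum_singleton, Nat.cast_zero, zero_add, Complex.one_cpow,
      div_one] at e0
    rw [← e0, add_sub_cancel_left]
    have hz4 : HasSum (fun n : ℕ => 1 / ((((n + 1 : ℕ) : ℝ) + 1) ^ 2)) (Real.pi ^ 2 / 6 - 1) := by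
      have := (hasSum_nat_add_iff (f := fun n : ℕ => 1 / (((n : ℝ) + 1) ^ 2)) (g := Real.pi ^ 2 / 6 - 1) 1).2
        (by simpa using hz3)
      simpa using this
    have h3 := tsum_of_norm_bounded hz4 (f := fun n : ℕ => 1 / (((n + 1 : ℕ) : ℂ) + 1) ^ s) (fun n => hle (n + 1))
    refine h3.trans ?_
    have h4 := Real.pi_lt_d2
    have h5 := Real.pi_gt_three
    nlinarith
  have h2 := norm_sub_norm_le (1 : ℂ) (1 - riemannZeta s)
  rw [norm_one, sub_sub_cancel, norm_sub_rev] at h2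
  linarith

/-- a point where the derivative of `F` is not small -/
theorem center : ∃ T₀ : ℝ, 2 ≤ T₀ ∧ ∀ t : ℝ, T₀ ≤ t → ∃ y : ℝ, 3 / 2 ≤ y ∧ y ≤ 7 / 2 ∧
    1 ≤ ‖deriv F ((t : ℂ) + (y : ℂ) * I)‖ := by
  obtain ⟨K, hK, hX⟩ := H345.Chi.XX_size
  obtain ⟨C, hC, hZ⟩ := Pool.Agent.H448R2.GC.X1.zeta_bdd
  obtain ⟨T₀, hT₀⟩ : ∃ T₀ : ℝ, T₀ = 2 + 16 * Real.exp K * (Real.exp K * C ^ 2 + 2) := ⟨_, rfl⟩
  have hE : 0 < Real.exp K := Real.exp_pos K
  refine ⟨T₀, by rw [hT₀]; nlinarith [show 0 < 16 * Real.exp K * (Real.exp K * C ^ 2 + 2) by positivity],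
    fun t ht => ?_⟩
  have ht2 : 2 ≤ t := by
    have : 0 < 16 * Real.exp K * (Real.exp K * C ^ 2 + 2) := by positivity
    linarith
  by_contra hcon
  push Not at hcon
  -- values at the two ends
  have hup : ‖F ((t : ℂ) + ((3 / 2 : ℝ) : ℂ) * I)‖ ≤ Real.exp K * C ^ 2 * t ^ (3 / 2 : ℝ) := by
    rw [F_norm t (3 / 2) (by linarith) (by norm_num)]
    have h1 := (hX (((1 / 2 + 3 / 2 : ℝ) : ℂ) + I * (t : ℂ)) (by simp <;> norm_num) (by simp <;> norm_num)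
      (by simp; linarith)).2
    have h2 : (((1 / 2 + 3 / 2 : ℝ) : ℂ) + I * (t : ℂ)).im = t := by simp
    have h3 : (((1 / 2 + 3 / 2 : ℝ) : ℂ) + I * (t : ℂ)).re - 1 / 2 = 3 / 2 := by simp
    rw [h2, h3] at h1
    have h4 := hZ (((1 / 2 + 3 / 2 : ℝ) : ℂ) + I * (t : ℂ)) (by simp <;> norm_num)
    rw [Pool.Agent.H448R2.GC.X1.XX_eq]
    calc _ ≤ (Real.exp K * t ^ (3 / 2 : ℝ)) * C ^ 2 := by gcongr
      _ = _ := by ring
  have hlo : Real.exp (-K) * t ^ (7 / 2 : ℝ) * (1 / 4) ^ 2 ≤ ‖F ((t : ℂ) + ((7 / 2 : ℝ) : ℂ) * I)‖ := by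
    rw [F_norm t (7 / 2) (by linarith) (by norm_num)]
    have h1 := (hX (((1 / 2 + 7 / 2 : ℝ) : ℂ) + I * (t : ℂ)) (by simp <;> norm_num) (by simp <;> norm_num)
      (by simp; linarith)).1
    have h2 : (((1 / 2 + 7 / 2 : ℝ) : ℂ) + I * (t : ℂ)).im = t := by simp
    have h3 : (((1 / 2 + 7 / 2 : ℝ) : ℂ) + I * (t : ℂ)).re - 1 / 2 = 7 / 2 := by simp
    rw [h2, h3] at h1
    have h4 := zeta_low (((1 / 2 + 7 / 2 : ℝ) : ℂ) + I * (t : ℂ)) (by simp <;> norm_num)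
    rw [Pool.Agent.H448R2.GC.X1.XX_eq]
    gcongr
  -- mean value inequality
  have hmv : ‖F ((t : ℂ) + ((7 / 2 : ℝ) : ℂ) * I) - F ((t : ℂ) + ((3 / 2 : ℝ) : ℂ) * I)‖ ≤ 1 * (7 / 2 - 3 / 2) := by
    have hd : ∀ y ∈ Icc (3 / 2 : ℝ) (7 / 2), HasDerivWithinAt (fun y : ℝ => F ((t : ℂ) + (y : ℂ) * I))
        (deriv F ((t : ℂ) + (y : ℂ) * I) * I) (Icc (3 / 2 : ℝ) (7 / 2)) y := by
      intro y _
      have h1 : HasDerivAt F (deriv F ((t : ℂ) + (y : ℂ) * I)) ((t : ℂ) + (y : ℂ) * I) :=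
        (F_diff _ (by simp; linarith)).hasDerivAt
      have h2 : HasDerivAt (fun y : ℝ => ((t : ℂ) + (y : ℂ) * I)) I y := by
        have := ((Complex.ofRealCLM.hasDerivAt (x := y)).mul_const I).const_add (t : ℂ)
        simpa using this
      exact (h1.comp y h2).hasDerivWithinAt
    have := norm_image_sub_le_of_norm_deriv_le_segment' hd (C := 1) (by
      intro y hy
      rw [norm_mul, Complex.norm_I, mul_one]
      exact (hcon y hy.1 hy.2.le).le) (7 / 2) (right_mem_Icc.2 (by norm_num))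
    exact this
  have h5 := norm_sub_norm_le (F ((t : ℂ) + ((7 / 2 : ℝ) : ℂ) * I)) (F ((t : ℂ) + ((3 / 2 : ℝ) : ℂ) * I))
  have h6 : t ^ (7 / 2 : ℝ) = t ^ 2 * t ^ (3 / 2 : ℝ) := by
    rw [← Real.rpow_natCast, ← Real.rpow_add (by linarith)]
    norm_num
  have h7 : (1 : ℝ) ≤ t ^ (3 / 2 : ℝ) := Real.one_le_rpow (by linarith) (by norm_num)
  obtain ⟨u, hu⟩ : ∃ u : ℝ, u = t ^ (3 / 2 : ℝ) := ⟨_, rfl⟩
  rw [h6, ← hu] at hlo
  rw [← hu] at hup h7
  have h8 : Real.exp (-K) * Real.exp K = 1 := by rw [← Real.exp_add]; simp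
  have h9 : Real.exp (-K) * (t ^ 2 * u) * (1 / 4) ^ 2 ≤ Real.exp K * C ^ 2 * u + 2 := by linarith
  have h10 : t ^ 2 * u ≤ 16 * Real.exp K * (Real.exp K * C ^ 2 * u + 2) := by
    calc t ^ 2 * u = 16 * Real.exp K * (Real.exp (-K) * (t ^ 2 * u) * (1 / 4) ^ 2) := by
          linear_combination (-(t ^ 2 * u)) * h8
      _ ≤ _ := by gcongr
  have h11 : 16 * Real.exp K * (Real.exp K * C ^ 2 * u + 2) ≤ 16 * Real.exp K * (Real.exp K * C ^ 2 + 2) * u := by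
    have : 0 < Real.exp K := hE
    nlinarith
  have h12 : t ^ 2 * u ≤ (T₀ - 2) * u := by rw [hT₀]; linarith
  have h13 : t ^ 2 ≤ T₀ - 2 := le_of_mul_le_mul_right h12 (by linarith)
  nlinarith

/-- number of the real zeros of the derivative -/
theorem crit_card : ∃ C T₀ : ℝ, 1 ≤ C ∧ 2 ≤ T₀ ∧ ∀ t : ℝ, T₀ ≤ t → ∀ Z : Finset ℝ,
    (∀ x ∈ Z, |x - t| ≤ 3 / 2 ∧ deriv F (x : ℂ) = 0) → (Z.card : ℝ) ≤ C * Real.log t := by
  obtain ⟨T₀, hT₀, hc⟩ := center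
  obtain ⟨C, hC, hP⟩ := dF_poly
  refine ⟨2 * (Real.log C / Real.log 2 + 84), T₀ + 20, ?_, by linarith, fun t ht Z hZ => ?_⟩
  · have := Real.log_nonneg hC
    have h2 : 0 < Real.log 2 := Real.log_pos (by norm_num)
    have : 0 ≤ Real.log C / Real.log 2 := by positivity
    linarith
  obtain ⟨y, hy1, hy2, hy3⟩ := hc t (by linarith)
  have hbox : ∀ z ∈ ball ((t : ℂ) + (y : ℂ) * I) 13, 2 ≤ z.re ∧ |z.im| ≤ 19 ∧ z.re ≤ 2 * t := by
    intro z hz
    rw [mem_ball, dist_eq_norm] at hz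
    have h1 := abs_lt.1 ((Complex.abs_re_le_norm _).trans_lt hz)
    have h2 := abs_lt.1 ((Complex.abs_im_le_norm _).trans_lt hz)
    simp at h1 h2
    refine ⟨by linarith, abs_le.2 ⟨by linarith, by linarith⟩, by linarith⟩
  have hdiff : DifferentiableOn ℂ (deriv F) (ball ((t : ℂ) + (y : ℂ) * I) 13) := by
    have h1 : DifferentiableOn ℂ F (ball ((t : ℂ) + (y : ℂ) * I) 13) := fun z hz =>
      (F_diff z (by linarith [(hbox z hz).1])).differentiableWithinAt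
    exact h1.deriv isOpen_ball
  have hM : ∀ z ∈ sphere ((t : ℂ) + (y : ℂ) * I) 12, ‖deriv F z‖ ≤ C * (2 * t) ^ 42 := by
    intro z hz
    have hz' : z ∈ ball ((t : ℂ) + (y : ℂ) * I) 13 := by
      rw [mem_sphere] at hz
      rw [mem_ball, hz]; norm_num
    obtain ⟨h1, h2, h3⟩ := hbox z hz'
    refine (hP z h1 h2).trans ?_
    gcongr
  have hcard := zeros_card (c := (t : ℂ) + (y : ℂ) * I) (r := 4) (R := 12) (R1 := 13) (by norm_num)
    (by norm_num) (by norm_num) hdiff hM hy3 (Z.image (fun x : ℝ => (x : ℂ))) (by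
      intro ρ hρ
      rw [Finset.mem_image] at hρ
      obtain ⟨x, hx, rfl⟩ := hρ
      obtain ⟨h1, h2⟩ := hZ x hx
      refine ⟨?_, h2⟩
      have h3 : ‖((x : ℂ) - ((t : ℂ) + (y : ℂ) * I))‖ ^ 2 ≤ 16 := by
        rw [← Complex.normSq_eq_norm_sq, Complex.normSq_apply]
        simp
        have := abs_le.1 h1
        nlinarith
      have h4 : (0 : ℝ) ≤ ‖((x : ℂ) - ((t : ℂ) + (y : ℂ) * I))‖ := norm_nonneg _
      nlinarith)
  rw [Finset.card_image_of_injective _ Complex.ofReal_injective] at hcard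
  refine hcard.trans ?_
  have ht0 : (2 : ℝ) ≤ t := by linarith
  have h2 : 0 < Real.log 2 := Real.log_pos (by norm_num)
  have h3 : Real.log 2 ≤ Real.log t := Real.log_le_log (by norm_num) ht0
  have h4 : Real.log (C * (2 * t) ^ 42) = Real.log C + 42 * (Real.log 2 + Real.log t) := by
    rw [Real.log_mul (by positivity) (by positivity), Real.log_pow, Real.log_mul (by norm_num) (by positivity)]
    push_cast
    ring
  rw [h4]
  have h5 : Real.log C ≤ Real.log C / Real.log 2 * Real.log t := by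
    rw [div_mul_eq_mul_div, le_div_iff₀ h2]
    exact mul_le_mul_of_nonneg_left h3 (Real.log_nonneg hC)
  nlinarith

end Pool.Agent.V8H35.LV
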