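import Pool.Agent.Helper240.ZU.A4
import Pool.Agent.Y79.GP.ZP
import Pool.Agent.Y969.GP.Def

set_option autoImplicit false

/-! Mean square of zeta strictly to the right of the critical line (after V8H24.GPX.ZL). -/

namespace Pool.Agent.V8H35.LV

open Complex Filter Topology MeasureTheory Set
open Pool.Agent.Y969.GP (ff)

lemma zeta_line_cont {x : ℝ} (hx : x ≠ 1) : Continuous fun v : ℝ => riemannZeta (x + I * v) := by
  rw [continuous_iff_continuousAt]
  intro v
  have h1 : (x + I * v : ℂ) ≠ 1 := by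
    intro h
    have := congrArg Complex.re h
    simp at this
    exact hx this
  exact ContinuousAt.comp (g := riemannZeta) (f := fun v : ℝ => (x + I * v : ℂ))
    (differentiableAt_riemannZeta h1).continuousAt (by fun_prop)

lemma log_le_rpow {κ y : ℝ} (hκ : 0 < κ) (hy : 0 ≤ y) : Real.log y ≤ y ^ κ / κ :=
  Real.log_le_rpow_div hy hκ

/-- the Gaussian factor -/
lemma gauss_small {e : ℝ} (he : 0 < e) : ∃ K : ℝ, 0 < K ∧ ∀ T : ℝ, 1 ≤ T →
    T ^ 2 * Real.exp (-(T ^ (2 * e) / 16)) ≤ K := by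
  obtain ⟨n, hn⟩ := exists_nat_ge (1 / e)
  refine ⟨(n.factorial : ℝ) * 16 ^ n, by positivity, fun T hT => ?_⟩
  have hT0 : 0 < T := by linarith
  have hy : 0 < T ^ (2 * e) / 16 := by positivity
  have h1 := Real.pow_div_factorial_le_exp (T ^ (2 * e) / 16) hy.le n
  have h2 : T ^ 2 ≤ (T ^ (2 * e)) ^ n := by
    rw [← Real.rpow_natCast (T ^ (2 * e)), ← Real.rpow_mul hT0.le, ← Real.rpow_natCast T 2]
    refine Real.rpow_le_rpow_of_exponent_le hT ?_
    have h3 : 1 ≤ e * n := by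
      rw [div_le_iff₀ he] at hn
      linarith
    push_cast
    nlinarith
  rw [Real.exp_neg, mul_inv_le_iff₀ (Real.exp_pos _)]
  have hf : 0 < (n.factorial : ℝ) := by positivity
  calc T ^ 2 ≤ (T ^ (2 * e)) ^ n := h2
    _ = (n.factorial : ℝ) * 16 ^ n * ((T ^ (2 * e) / 16) ^ n / n.factorial) := by
        rw [div_pow]; field_simp
    _ ≤ _ := by gcongr

theorem ZLs : ∀ κ : ℝ, 0 < κ → ∃ C : ℝ, 0 < C ∧ ∀ x T : ℝ, 1 / 2 < x → x ≤ 2 → 1 ≤ T →
    (∫ v in (1 : ℝ)..T, ‖riemannZeta (x + I * v)‖ ^ 2 ≤ C * T ^ (1 + κ)) := by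
  intro κ hκ
  obtain ⟨η, hη⟩ : ∃ η : ℝ, η = min (κ / 6) (1 / 8) := ⟨_, rfl⟩
  have hη0 : 0 < η := by rw [hη]; positivity
  have hη1 : η ≤ κ / 6 := by rw [hη]; exact min_le_left _ _
  have hη2 : η ≤ 1 / 8 := by rw [hη]; exact min_le_right _ _
  obtain ⟨C1, hC1, hz⟩ := Pool.Agent.Y79.GP.zp1 η hη0 hη2
  obtain ⟨C2, hC2⟩ : ∃ C2 : ℝ, 0 < C2 := ⟨1, one_pos⟩
  obtain ⟨e, he⟩ : ∃ e : ℝ, e = min κ (1 / 2) := ⟨_, rfl⟩
  have he0 : 0 < e := by rw [he]; positivity
  have he1 : e ≤ κ := by rw [he]; exact min_le_left _ _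
  have he2 : e ≤ 1 / 2 := by rw [he]; exact min_le_right _ _
  obtain ⟨K, hK, hKb⟩ := gauss_small he0
  -- the constant of the third case
  obtain ⟨C3, hC3⟩ : ∃ C3 : ℝ, C3 = 3 * Real.exp 4 * (√Real.pi * ((1 + 2 ^ κ / κ) + 4 * K)) +
    3 * (2 / (2 * η) ^ 2) * Real.pi + 3 * Real.exp 4 * 5 * (2 * Real.pi) := ⟨_, rfl⟩
  have hC30 : 0 ≤ C3 := by rw [hC3]; positivity
  refine ⟨C1 ^ 2 + C2 * (2 * (4 ^ κ / κ)) + (2 * C3 + 2), by positivity, fun x T hx1 hx2 hT => ?_⟩
  have hT0 : 0 < T := by linarith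
  have hTk : T * T ^ κ = T ^ (1 + κ) := by rw [Real.rpow_add hT0, Real.rpow_one]
  have hTk1 : 1 ≤ T ^ κ := Real.one_le_rpow hT hκ.le
  have hTp : 0 < T ^ (1 + κ) := by positivity
  rcases le_or_gt (1 - 2 * η) x with hx | hx
  · -- near the line one, and to the right
    have h1 : ∫ v in (1 : ℝ)..T, ‖riemannZeta (x + I * v)‖ ^ 2 ≤ ∫ v in (1 : ℝ)..T, C1 ^ 2 * T ^ κ := by
      by_cases hi : IntervalIntegrable (fun v : ℝ => ‖riemannZeta (x + I * v)‖ ^ 2) volume 1 T
      · refine intervalIntegral.integral_mono_on hT hi intervalIntegrable_const fun v hv => ?_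
        have hv0 : 0 < v := by linarith [hv.1]
        have h2 := hz (x + I * v) (by simpa using hx) (by
          simp only [add_im, ofReal_im, mul_im, I_re, I_im, ofReal_re, zero_mul, one_mul, zero_add]
          rw [abs_of_pos hv0]; exact hv.1)
        have h3 : |(x + I * v : ℂ).im| = v := by simp [abs_of_pos hv0]
        rw [h3] at h2
        calc ‖riemannZeta (x + I * v)‖ ^ 2 ≤ (C1 * v ^ (3 * η)) ^ 2 := by gcongr
          _ = C1 ^ 2 * v ^ (6 * η) := by
              rw [mul_pow, ← Real.rpow_natCast (v ^ (3 * η)), ← Real.rpow_mul hv0.le]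
              congr 2; push_cast; ring
          _ ≤ C1 ^ 2 * T ^ κ := by
              gcongr
              calc v ^ (6 * η) ≤ T ^ (6 * η) := Real.rpow_le_rpow hv0.le hv.2 (by positivity)
                _ ≤ T ^ κ := Real.rpow_le_rpow_of_exponent_le hT (by linarith)
      · rw [intervalIntegral.integral_undef hi]
        exact intervalIntegral.integral_nonneg hT fun v _ => by positivity
    refine h1.trans ?_
    rw [intervalIntegral.integral_const, smul_eq_mul]
    calc (T - 1) * (C1 ^ 2 * T ^ κ) ≤ T * (C1 ^ 2 * T ^ κ) := by gcongr; linarith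
      _ = C1 ^ 2 * T ^ (1 + κ) := by rw [← hTk]; ring
      _ ≤ _ := by
          gcongr
          have : 0 ≤ C2 * (2 * (4 ^ κ / κ)) + (2 * C3 + 2) := by positivity
          linarith
  · have hx3 : x ≠ 1 := by intro h; linarith
    have hc := zeta_line_cont hx3
    rcases eq_or_lt_of_le hx1.le with hx4 | hx4
    · exact absurd hx4 hx1.ne
    · -- between
      obtain ⟨L, hL⟩ : ∃ L : ℕ, L = ⌈T ^ (1 - e)⌉₊ := ⟨_, rfl⟩
      have hTe : 1 ≤ T ^ (1 - e) := Real.one_le_rpow hT (by linarith)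
      have hL1 : T ^ (1 - e) ≤ L := by rw [hL]; exact Nat.le_ceil _
      have hL2 : (L : ℝ) ≤ 2 * T ^ (1 - e) := by
        rw [hL]
        have := (Nat.ceil_lt_add_one (by positivity : 0 ≤ T ^ (1 - e))).le
        linarith
      have hL3 : (1 : ℝ) ≤ L := hTe.trans hL1
      have hL4 : 1 ≤ L := by exact_mod_cast hL3
      have hL0 : (0 : ℝ) < L := by linarith
      have hTe2 : T ^ (1 - e) ≤ T := by
        calc T ^ (1 - e) ≤ T ^ (1 : ℝ) := Real.rpow_le_rpow_of_exponent_le hT (by linarith)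
          _ = T := Real.rpow_one T
      have hL5 : (L : ℝ) ≤ 2 * T := by linarith
      have hb := ZU.J_a4.zm_bound x (1 - 2 * η) x 1 T 1 L hL4 hL4 hx4 ⟨le_rfl, hx.le⟩ (by linarith)
        one_pos hT hT
      -- the terms
      have t1 : ∑ n ∈ Finset.Ioc 1 L, (n : ℝ) ^ (-(2 * x)) ≤ (1 + 2 ^ κ / κ) * T ^ κ := by
        have a1 : ∑ n ∈ Finset.Ioc 1 L, (n : ℝ) ^ (-(2 * x)) ≤ ∑ n ∈ Finset.Icc 1 L, ((n : ℝ))⁻¹ := by
          refine (Finset.sum_le_sum fun n hn => ?_).trans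
            (Finset.sum_le_sum_of_subset_of_nonneg (Finset.Ioc_subset_Icc_self) fun n _ _ => by positivity)
          have hn1 : (1 : ℝ) ≤ n := by exact_mod_cast (Finset.mem_Ioc.1 hn).1.le
          rw [← Real.rpow_neg_one]
          exact Real.rpow_le_rpow_of_exponent_le hn1 (by linarith)
        have a2 : ∑ n ∈ Finset.Icc 1 L, ((n : ℝ))⁻¹ ≤ 1 + Real.log L := by
          have := harmonic_le_one_add_log L
          rw [harmonic_eq_sum_Icc] at this
          push_cast at this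
          exact this
        have a3 : Real.log L ≤ (2 ^ κ / κ) * T ^ κ := by
          refine (log_le_rpow hκ hL0.le).trans ?_
          have : (L : ℝ) ^ κ ≤ 2 ^ κ * T ^ κ := by
            rw [← Real.mul_rpow (by norm_num) hT0.le]
            exact Real.rpow_le_rpow hL0.le hL5 hκ.le
          calc (L : ℝ) ^ κ / κ ≤ 2 ^ κ * T ^ κ / κ := by gcongr
            _ = _ := by ring
        calc _ ≤ 1 + Real.log L := a1.trans a2
          _ ≤ 1 * T ^ κ + (2 ^ κ / κ) * T ^ κ := by linarith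
          _ = _ := by ring
      have t2 : (L : ℝ) ^ 2 * Real.exp (-(T ^ 2 / (4 * (L : ℝ) ^ 2))) ≤ 4 * K * T ^ κ := by
        have a1 : T ^ (2 * e) / 16 ≤ T ^ 2 / (4 * (L : ℝ) ^ 2) := by
          rw [div_le_div_iff₀ (by norm_num) (by positivity)]
          have a2 : (L : ℝ) ^ 2 ≤ 4 * (T ^ (1 - e)) ^ 2 := by
            calc (L : ℝ) ^ 2 ≤ (2 * T ^ (1 - e)) ^ 2 := by gcongr
              _ = _ := by ring
          have a3 : T ^ (2 * e) * (T ^ (1 - e)) ^ 2 = T ^ 2 := by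
            rw [← Real.rpow_natCast (T ^ (1 - e)), ← Real.rpow_mul hT0.le, ← Real.rpow_add hT0,
              ← Real.rpow_natCast T 2]
            congr 1; push_cast; ring
          calc T ^ (2 * e) * (4 * (L : ℝ) ^ 2) ≤ T ^ (2 * e) * (4 * (4 * (T ^ (1 - e)) ^ 2)) := by gcongr
            _ = 16 * (T ^ (2 * e) * (T ^ (1 - e)) ^ 2) := by ring
            _ = T ^ 2 * 16 := by rw [a3]; ring
        calc (L : ℝ) ^ 2 * Real.exp (-(T ^ 2 / (4 * (L : ℝ) ^ 2)))
            ≤ (2 * T) ^ 2 * Real.exp (-(T ^ (2 * e) / 16)) := by gcongr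
          _ = 4 * (T ^ 2 * Real.exp (-(T ^ (2 * e) / 16))) := by ring
          _ ≤ 4 * K := by have := hKb T hT; linarith
          _ ≤ 4 * K * T ^ κ := le_mul_of_one_le_right (by positivity) hTk1
      have t3 : ((L : ℝ) ^ (1 - x)) ^ 2 / (1 - (1 - 2 * η)) ^ 2 ≤ 2 / (2 * η) ^ 2 * T ^ (1 + κ) := by
        have a1 : ((L : ℝ) ^ (1 - x)) ^ 2 ≤ 2 * T := by
          calc ((L : ℝ) ^ (1 - x)) ^ 2 = (L : ℝ) ^ (2 * (1 - x)) := by
                rw [← Real.rpow_natCast, ← Real.rpow_mul hL0.le]; congr 1; push_cast; ring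
            _ ≤ (L : ℝ) ^ (1 : ℝ) := Real.rpow_le_rpow_of_exponent_le hL3 (by linarith)
            _ = L := Real.rpow_one _
            _ ≤ 2 * T := hL5
        have a2 : T ≤ T ^ (1 + κ) := by rw [← hTk]; exact le_mul_of_one_le_right hT0.le hTk1
        have a3 : (1 - (1 - 2 * η)) = 2 * η := by ring
        rw [a3]
        calc ((L : ℝ) ^ (1 - x)) ^ 2 / (2 * η) ^ 2 ≤ 2 * T ^ (1 + κ) / (2 * η) ^ 2 := by
              gcongr
              linarith
          _ = _ := by ring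
      have t4 : (L : ℝ) ^ (-(2 * x)) / (2 * x) * T ^ 2 ≤ T ^ (1 + κ) := by
        have a1 : (L : ℝ) ^ (-(2 * x)) ≤ T ^ (-(1 - e)) := by
          calc (L : ℝ) ^ (-(2 * x)) ≤ (L : ℝ) ^ (-1 : ℝ) :=
                Real.rpow_le_rpow_of_exponent_le hL3 (by linarith)
            _ = (L : ℝ)⁻¹ := Real.rpow_neg_one _
            _ ≤ (T ^ (1 - e))⁻¹ := by gcongr
            _ = _ := by rw [Real.rpow_neg hT0.le]
        have a2 : T ^ (-(1 - e)) * T ^ 2 ≤ T ^ (1 + κ) := by
          rw [← Real.rpow_natCast T 2, ← Real.rpow_add hT0]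
          refine Real.rpow_le_rpow_of_exponent_le hT ?_
          push_cast; linarith
        calc (L : ℝ) ^ (-(2 * x)) / (2 * x) * T ^ 2 ≤ T ^ (-(1 - e)) / 1 * T ^ 2 := by
              gcongr; linarith
          _ = T ^ (-(1 - e)) * T ^ 2 := by rw [div_one]
          _ ≤ _ := a2
      have hbb : ∫ t in (-1)..(T + 1), ‖riemannZeta ((x : ℂ) + t * I) - ZU.DN 1 ((x : ℂ) + t * I)‖ ^ 2 ≤
          C3 * T ^ (1 + κ) := by
        refine hb.trans ?_
        have p1 : 3 * Real.exp 4 * (√Real.pi * T * (∑ n ∈ Finset.Ioc 1 L, (n : ℝ) ^ (-(2 * x)) +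
            (L : ℝ) ^ 2 * Real.exp (-(T ^ 2 / (4 * (L : ℝ) ^ 2))))) ≤
            3 * Real.exp 4 * (√Real.pi * ((1 + 2 ^ κ / κ) + 4 * K)) * T ^ (1 + κ) := by
          calc _ ≤ 3 * Real.exp 4 * (√Real.pi * T * ((1 + 2 ^ κ / κ) * T ^ κ + 4 * K * T ^ κ)) := by
                gcongr
            _ = _ := by rw [← hTk]; ring
        have p2 : 3 * (((L : ℝ) ^ (1 - x)) ^ 2 / (1 - (1 - 2 * η)) ^ 2) * Real.pi ≤
            3 * (2 / (2 * η) ^ 2) * Real.pi * T ^ (1 + κ) := by
          calc _ ≤ 3 * (2 / (2 * η) ^ 2 * T ^ (1 + κ)) * Real.pi := by gcongr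
            _ = _ := by ring
        have p3 : 3 * Real.exp 4 * (1 + 4 * T ^ 2) * (2 * Real.pi * ((L : ℝ) ^ (-(2 * x)) / (2 * x))) ≤
            3 * Real.exp 4 * 5 * (2 * Real.pi) * T ^ (1 + κ) := by
          have q0 : 0 ≤ (L : ℝ) ^ (-(2 * x)) / (2 * x) := by
            have : 0 < x := by linarith
            positivity
          calc _ ≤ 3 * Real.exp 4 * (5 * T ^ 2) * (2 * Real.pi * ((L : ℝ) ^ (-(2 * x)) / (2 * x))) := by
                gcongr
                nlinarith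
            _ = 3 * Real.exp 4 * 5 * (2 * Real.pi) * ((L : ℝ) ^ (-(2 * x)) / (2 * x) * T ^ 2) := by ring
            _ ≤ _ := by gcongr
        rw [hC3]
        linarith
      have hDN : ∀ s : ℂ, ZU.DN 1 s = 1 := by
        intro s
        unfold ZU.DN
        simp
      have hci : Continuous fun v : ℝ => ‖riemannZeta ((x : ℂ) + v * I) - ZU.DN 1 ((x : ℂ) + v * I)‖ ^ 2 := by
        simp only [hDN]
        have : (fun v : ℝ => ‖riemannZeta ((x : ℂ) + v * I) - 1‖ ^ 2) =
            fun v : ℝ => ‖riemannZeta (x + I * v) - 1‖ ^ 2 := by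
          funext v; rw [mul_comm (v : ℂ) I]
        rw [this]
        exact (hc.sub continuous_const).norm.pow 2
      have h1 : ∫ v in (1:ℝ)..T, ‖riemannZeta (x + I * v)‖ ^ 2 ≤
          ∫ v in (1:ℝ)..T, (2 * ‖riemannZeta ((x : ℂ) + v * I) - ZU.DN 1 ((x : ℂ) + v * I)‖ ^ 2 + 2) := by
        refine intervalIntegral.integral_mono_on hT ((hc.norm.pow 2).intervalIntegrable _ _)
          (((hci.const_mul 2).add continuous_const).intervalIntegrable _ _) fun v _ => ?_
        rw [hDN, mul_comm (v : ℂ) I]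
        have h2 : ‖riemannZeta (x + I * v)‖ ≤ ‖riemannZeta (x + I * v) - 1‖ + 1 := by
          calc ‖riemannZeta (x + I * v)‖ = ‖(riemannZeta (x + I * v) - 1) + 1‖ := by ring_nf
            _ ≤ _ := by
              refine (norm_add_le _ _).trans ?_
              rw [norm_one]
        nlinarith [norm_nonneg (riemannZeta (x + I * v)), norm_nonneg (riemannZeta (x + I * v) - 1),
          sq_nonneg (‖riemannZeta (x + I * v) - 1‖ - 1)]
      refine h1.trans ?_
      rw [intervalIntegral.integral_add ((hci.const_mul 2).intervalIntegrable _ _)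
        (continuous_const.intervalIntegrable _ _), intervalIntegral.integral_const_mul,
        intervalIntegral.integral_const, smul_eq_mul]
      have h3 : ∫ v in (1:ℝ)..T, ‖riemannZeta ((x : ℂ) + v * I) - ZU.DN 1 ((x : ℂ) + v * I)‖ ^ 2 ≤
          ∫ v in (-1:ℝ)..(T + 1), ‖riemannZeta ((x : ℂ) + v * I) - ZU.DN 1 ((x : ℂ) + v * I)‖ ^ 2 :=
        intervalIntegral.integral_mono_interval (by norm_num) hT (by linarith)
          (Eventually.of_forall fun v => by positivity) (hci.intervalIntegrable _ _)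
      have a2 : T ≤ T ^ (1 + κ) := by rw [← hTk]; exact le_mul_of_one_le_right hT0.le hTk1
      have a4 : 0 ≤ (C1 ^ 2 + C2 * (2 * (4 ^ κ / κ))) * T ^ (1 + κ) := by positivity
      have a5 := h3.trans hbb
      nlinarith

end Pool.Agent.V8H35.LV
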