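import Pool.Agent.H448R2.GC.X1
import Pool.Agent.H52R4.PZT1
import Pool.Agent.V8H35.LV.ZL
import Pool.Agent.V8H35.LV.DL

set_option autoImplicit false

/-! The function `F(z) = ζ(1/2+iz) ζ(1/2-iz)`, equal to `|ζ(1/2+it)|^2` on the real line. -/

namespace Pool.Agent.V8H35.LV

open Complex Metric Set MeasureTheory intervalIntegral

noncomputable def F (z : ℂ) : ℂ := riemannZeta (1 / 2 + I * z) * riemannZeta (1 / 2 - I * z)

theorem F_diff (z : ℂ) (hz : 1 ≤ z.re) : DifferentiableAt ℂ F z := by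
  have h1 : (1 / 2 + I * z : ℂ) ≠ 1 := by
    intro h
    have := congrArg Complex.im h
    simp at this
    linarith
  have h2 : (1 / 2 - I * z : ℂ) ≠ 1 := by
    intro h
    have := congrArg Complex.im h
    simp at this
    linarith
  have h3 := differentiableAt_riemannZeta h1
  have h4 := differentiableAt_riemannZeta h2
  have h5 : DifferentiableAt ℂ (fun z : ℂ => riemannZeta (1 / 2 + I * z)) z :=
    DifferentiableAt.comp z (g := riemannZeta) (f := fun z : ℂ => 1 / 2 + I * z) h3 (by fun_prop)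
  have h6 : DifferentiableAt ℂ (fun z : ℂ => riemannZeta (1 / 2 - I * z)) z :=
    DifferentiableAt.comp z (g := riemannZeta) (f := fun z : ℂ => 1 / 2 - I * z) h4 (by fun_prop)
  exact h5.mul h6

theorem F_real (t : ℝ) : F (t : ℂ) = ((‖riemannZeta (1 / 2 + I * (t : ℂ))‖ ^ 2 : ℝ) : ℂ) := by
  have h1 : (1 / 2 - I * (t : ℂ)) = (starRingEnd ℂ) (1 / 2 + I * (t : ℂ)) := by
    apply Complex.ext <;> simp
  rw [F, h1, riemannZeta_conj, Complex.mul_conj, Complex.normSq_eq_norm_sq]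

theorem F_conj (z : ℂ) : F ((starRingEnd ℂ) z) = (starRingEnd ℂ) (F z) := by
  have h1 : (1 / 2 + I * (starRingEnd ℂ) z) = (starRingEnd ℂ) (1 / 2 - I * z) := by
    apply Complex.ext <;> simp
  have h2 : (1 / 2 - I * (starRingEnd ℂ) z) = (starRingEnd ℂ) (1 / 2 + I * z) := by
    apply Complex.ext <;> simp [sub_eq_add_neg]
  rw [F, F, h1, h2, riemannZeta_conj, riemannZeta_conj, map_mul, mul_comm]

theorem F_norm (x y : ℝ) (hx : 1 ≤ x) (hy : 0 ≤ y) : ‖F ((x : ℂ) + (y : ℂ) * I)‖ =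
    ‖Pool.Agent.H448R2.GC.XX (((1 / 2 + y : ℝ) : ℂ) + I * (x : ℂ))‖ *
      ‖riemannZeta (((1 / 2 + y : ℝ) : ℂ) + I * (x : ℂ))‖ ^ 2 := by
  set w : ℂ := ((1 / 2 + y : ℝ) : ℂ) + I * (x : ℂ) with hw
  have hre : w.re = 1 / 2 + y := by
    rw [hw]; simp only [add_re, ofReal_re, mul_re, I_re, I_im, ofReal_im, zero_mul, one_mul, mul_zero, sub_self, add_zero]
  have him : w.im = x := by
    rw [hw]; simp only [add_im, ofReal_im, mul_im, I_re, I_im, ofReal_re, zero_mul, one_mul, zero_add]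
  have e1 : (1 / 2 + I * ((x : ℂ) + (y : ℂ) * I)) = (starRingEnd ℂ) (1 - w) := by
    apply Complex.ext
    · rw [Complex.conj_re, Complex.sub_re, hre]; simp; ring
    · rw [Complex.conj_im, Complex.sub_im, him]; simp
  have e2 : (1 / 2 - I * ((x : ℂ) + (y : ℂ) * I)) = (starRingEnd ℂ) w := by
    apply Complex.ext
    · rw [Complex.conj_re, hre]; simp
    · rw [Complex.conj_im, him]; simp
  have hw1 : w ≠ 1 := by
    intro h
    have := congrArg Complex.im h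
    rw [him] at this
    simp at this
    linarith
  rw [F, e1, e2, riemannZeta_conj, riemannZeta_conj, norm_mul, RCLike.norm_conj, RCLike.norm_conj,
    Pool.Agent.H448R2.GC.zeta_fe w (by rw [hre]; linarith) hw1, norm_mul]
  ring

/-- the mean value of `F` on the lines `Im z = y`, `y ≠ 0` small -/
theorem F_mean (κ : ℝ) (hκ : 0 < κ) : ∃ C : ℝ, 0 < C ∧ ∀ y X : ℝ, |y| ≤ 1 → y ≠ 0 → 1 ≤ X →
    ∫ x in (1 : ℝ)..X, ‖F ((x : ℂ) + (y : ℂ) * I)‖ ≤ C * X ^ (1 + κ + |y|) := by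
  obtain ⟨C, hC, hZ⟩ := ZLs κ hκ
  obtain ⟨K, hK, hX⟩ := H345.Chi.XX_size
  refine ⟨Real.exp K * C, by positivity, fun y X hy hy0 hX1 => ?_⟩
  have hX0 : 0 < X := by linarith
  -- reduction to y > 0
  have hsym : ∀ x : ℝ, ‖F ((x : ℂ) + (y : ℂ) * I)‖ = ‖F ((x : ℂ) + ((|y| : ℝ) : ℂ) * I)‖ := by
    intro x
    rcases le_total 0 y with h | h
    · rw [abs_of_nonneg h]
    · rw [abs_of_nonpos h]
      have e : ((x : ℂ) + ((-y : ℝ) : ℂ) * I) = (starRingEnd ℂ) ((x : ℂ) + (y : ℂ) * I) := by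
        apply Complex.ext <;> simp
      rw [e, F_conj, RCLike.norm_conj]
  simp only [hsym]
  obtain ⟨v, hv⟩ : ∃ v : ℝ, v = |y| := ⟨_, rfl⟩
  rw [← hv] at hy ⊢
  have hv0 : 0 < v := by rw [hv]; exact abs_pos.2 hy0
  have hpt : ∀ x ∈ Icc (1 : ℝ) X, ‖F ((x : ℂ) + (v : ℂ) * I)‖ ≤
      (Real.exp K * X ^ v) * ‖riemannZeta (((1 / 2 + v : ℝ) : ℂ) + I * (x : ℂ))‖ ^ 2 := by
    intro x hx
    rw [F_norm x v hx.1 hv0.le]
    have h1 := (hX (((1 / 2 + v : ℝ) : ℂ) + I * (x : ℂ)) (by simp; linarith) (by simp; linarith)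
      (by simp; exact hx.1)).2
    have h2 : (((1 / 2 + v : ℝ) : ℂ) + I * (x : ℂ)).im = x := by simp
    have h3 : (((1 / 2 + v : ℝ) : ℂ) + I * (x : ℂ)).re - 1 / 2 = v := by simp
    rw [h2, h3] at h1
    have h4 : x ^ v ≤ X ^ v := Real.rpow_le_rpow (by linarith [hx.1]) hx.2 hv0.le
    rw [Pool.Agent.H448R2.GC.X1.XX_eq]
    gcongr
    exact h1.trans (by gcongr)
  have hc1 : ContinuousOn (fun x : ℝ => ‖F ((x : ℂ) + (v : ℂ) * I)‖) (Icc 1 X) := by
    intro x hx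
    have h1 : ContinuousAt F ((x : ℂ) + (v : ℂ) * I) := (F_diff _ (by simpa using hx.1)).continuousAt
    exact (ContinuousAt.comp (g := fun z => ‖F z‖) (f := fun x : ℝ => ((x : ℂ) + (v : ℂ) * I))
      h1.norm (by fun_prop)).continuousWithinAt
  have hc2 : ContinuousOn (fun x : ℝ => ‖riemannZeta (((1 / 2 + v : ℝ) : ℂ) + I * (x : ℂ))‖ ^ 2) (Icc 1 X) := by
    intro x hx
    have h0 : (((1 / 2 + v : ℝ) : ℂ) + I * (x : ℂ)) ≠ 1 := by
      intro h
      have := congrArg Complex.im h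
      simp at this
      linarith [hx.1]
    have h1 : ContinuousAt riemannZeta (((1 / 2 + v : ℝ) : ℂ) + I * (x : ℂ)) :=
      (differentiableAt_riemannZeta h0).continuousAt
    exact (ContinuousAt.comp (g := fun z => ‖riemannZeta z‖ ^ 2)
      (f := fun x : ℝ => (((1 / 2 + v : ℝ) : ℂ) + I * (x : ℂ)))
      (h1.norm.pow 2) (by fun_prop)).continuousWithinAt
  calc ∫ x in (1 : ℝ)..X, ‖F ((x : ℂ) + (v : ℂ) * I)‖
      ≤ ∫ x in (1 : ℝ)..X, (Real.exp K * X ^ v) * ‖riemannZeta (((1 / 2 + v : ℝ) : ℂ) + I * (x : ℂ))‖ ^ 2 := by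
        refine intervalIntegral.integral_mono_on hX1 ?_ ?_ hpt
        · exact ContinuousOn.intervalIntegrable (by rwa [uIcc_of_le hX1])
        · exact (ContinuousOn.intervalIntegrable (by rwa [uIcc_of_le hX1])).const_mul _
    _ = (Real.exp K * X ^ v) * ∫ x in (1 : ℝ)..X, ‖riemannZeta (((1 / 2 + v : ℝ) : ℂ) + I * (x : ℂ))‖ ^ 2 := by
        rw [intervalIntegral.integral_const_mul]
    _ ≤ (Real.exp K * X ^ v) * (C * X ^ (1 + κ)) := by
        gcongr
        exact hZ (1 / 2 + v) X (by linarith) (by linarith) hX1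
    _ = Real.exp K * C * X ^ (1 + κ + v) := by
        rw [Real.rpow_add hX0 (1 + κ) v]
        ring

end Pool.Agent.V8H35.LV
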