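import Pool.Agent.V8H35.LV.SB
import Pool.Agent.N84.MD.A

set_option autoImplicit false

/-! Covering of the exceptional levels. -/

namespace Pool.Agent.V8H35.LV

open Complex Metric Set MeasureTheory Filter Asymptotics

/-- summability of `m^(-τ) (1 + SS m)` -/
theorem summ (τ : ℝ) (hτ : 1 < τ) : Summable fun m : ℕ => (m : ℝ) ^ (-τ) * (1 + |SS m|) := by
  have h1 : Summable fun m : ℕ => (m : ℝ) ^ (-τ) := Real.summable_nat_rpow.2 (by linarith)
  obtain ⟨ε, hε⟩ : ∃ ε : ℝ, ε = (τ - 1) / 2 := ⟨_, rfl⟩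
  have hε0 : 0 < ε := by rw [hε]; linarith
  obtain ⟨C, hC, hS⟩ := sup_sum ε hε0
  obtain ⟨B, hB⟩ : ∃ B : ℝ, B = ∑ m ∈ Finset.range 4, |SS m| := ⟨_, rfl⟩
  have hB0 : 0 ≤ B := by rw [hB]; positivity
  have hO : (fun n : ℕ => ∑ k ∈ Finset.Icc 1 n, |SS k|) =O[atTop] fun n : ℕ => (n : ℝ) ^ (1 + ε) := by
    refine IsBigO.of_bound (B + C * 2 ^ (1 + ε)) ?_
    filter_upwards [eventually_ge_atTop 4] with n hn
    have hn' : (4 : ℝ) ≤ n := by exact_mod_cast hn
    rw [Real.norm_of_nonneg (Finset.sum_nonneg fun _ _ => abs_nonneg _),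
      Real.norm_of_nonneg (by positivity)]
    have h2 : ∑ k ∈ Finset.Icc 1 n, |SS k| ≤ B + ∑ m ∈ Finset.Ico 4 (n + 1), SS m := by
      have h3 : ∑ k ∈ Finset.Icc 1 n, |SS k| ≤ ∑ k ∈ Finset.range 4 ∪ Finset.Ico 4 (n + 1), |SS k| := by
        refine Finset.sum_le_sum_of_subset_of_nonneg ?_ fun _ _ _ => abs_nonneg _
        intro k hk
        rw [Finset.mem_Icc] at hk
        rw [Finset.mem_union, Finset.mem_range, Finset.mem_Ico]
        omega
      have hdis : Disjoint (Finset.range 4) (Finset.Ico 4 (n + 1)) := by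
        rw [Finset.disjoint_left]
        intro k hk hk2
        rw [Finset.mem_range] at hk
        rw [Finset.mem_Ico] at hk2
        omega
      rw [Finset.sum_union hdis] at h3
      refine h3.trans ?_
      rw [← hB]
      refine add_le_add le_rfl (le_of_eq (Finset.sum_congr rfl fun m hm => ?_))
      rw [Finset.mem_Ico] at hm
      exact abs_of_nonneg (SS_nonneg m (by omega))
    have h4 := hS (n + 1) (by omega)
    have h5 : (((n + 1 : ℕ) : ℝ)) ^ (1 + ε) ≤ 2 ^ (1 + ε) * (n : ℝ) ^ (1 + ε) := by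
      rw [← Real.mul_rpow (by norm_num) (by linarith)]
      push_cast
      gcongr
      linarith
    have h6 : (1 : ℝ) ≤ (n : ℝ) ^ (1 + ε) := Real.one_le_rpow (by linarith) (by linarith)
    have h7 : C * (((n + 1 : ℕ) : ℝ)) ^ (1 + ε) ≤ C * (2 ^ (1 + ε) * (n : ℝ) ^ (1 + ε)) := by gcongr
    nlinarith
  have h2 := LSeriesSummable_of_sum_norm_bigO_and_nonneg (r := 1 + ε) (s := (τ : ℂ)) hO
    (fun n => abs_nonneg _) (by linarith) (by rw [Complex.ofReal_re, hε]; linarith)
  have h3 : Summable fun m : ℕ => (m : ℝ) ^ (-τ) * |SS m| := by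
    have h4 := h2.norm
    refine Summable.of_nonneg_of_le (fun m => by positivity) (fun m => ?_) (h4.add (summable_of_ne_finset_zero
      (s := {0}) (f := fun m : ℕ => if m = 0 then (0 : ℝ) ^ (-τ) * |SS 0| else 0) (by
        intro b hb
        rw [Finset.mem_singleton] at hb
        rw [if_neg hb])))
    rw [LSeries.norm_term_eq]
    by_cases hm : m = 0
    · subst hm
      simp
    · rw [if_neg hm, if_neg hm, add_zero, Complex.norm_real, Real.norm_of_nonneg (abs_nonneg _),
        Complex.ofReal_re, Real.rpow_neg (Nat.cast_nonneg _), div_eq_inv_mul]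
  have h5 := h1.add h3
  refine h5.congr fun m => ?_
  ring

end Pool.Agent.V8H35.LV
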