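import Pool.Agent.V8H35.LV.GL1

set_option autoImplicit false

/-! Covering of the exceptional levels. -/

namespace Pool.Agent.V8H35.LV

open Complex Metric Set MeasureTheory Filter Asymptotics
open scoped ENNReal

/-- `|ζ(1/2+it)|^2` -/
noncomputable def fr (t : ℝ) : ℝ := ‖riemannZeta (1 / 2 + I * (t : ℂ))‖ ^ 2

theorem F_fr (t : ℝ) : F (t : ℂ) = ((fr t : ℝ) : ℂ) := F_real t

theorem fr_deriv (t : ℝ) (ht : 0 < t) : HasDerivAt fr (deriv F (t : ℂ)).re t := by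
  have h1 := (F_diff0 (t : ℂ) (by simpa using ht)).hasDerivAt.real_of_complex
  have h2 : (fun x : ℝ => (F (x : ℂ)).re) = fr := by
    funext x
    rw [F_fr, Complex.ofReal_re]
  rwa [h2] at h1

theorem dF_im (t : ℝ) (ht : 0 < t) : (deriv F (t : ℂ)).im = 0 := by
  have h1 : HasDerivAt (fun x : ℝ => F (x : ℂ)) (deriv F (t : ℂ)) t :=
    (F_diff0 (t : ℂ) (by simpa using ht)).hasDerivAt.comp_ofReal
  have h2 := Complex.imCLM.hasFDerivAt.comp_hasDerivAt t h1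
  have h3 : (Complex.imCLM ∘ fun x : ℝ => F (x : ℂ)) = fun _ => (0 : ℝ) := by
    funext x
    simp [F_fr]
  rw [h3] at h2
  have h4 := h2.unique (hasDerivAt_const t (0 : ℝ))
  simpa using h4

/-- between two points with the same value there is a critical point -/
theorem rolle {t t' : ℝ} (ht : 0 < t) (htt : t < t') (h : fr t = fr t') :
    ∃ c ∈ Ioo t t', deriv F (c : ℂ) = 0 := by
  obtain ⟨c, hc, h1⟩ := exists_hasDerivAt_eq_zero (f := fr) (f' := fun x => (deriv F (x : ℂ)).re) htt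
    (fun x hx => (fr_deriv x (by linarith [hx.1])).continuousAt.continuousWithinAt) h
    (fun x hx => fr_deriv x (by linarith [hx.1]))
  exact ⟨c, hc, Complex.ext h1 (dF_im c (by linarith [hc.1]))⟩

/-- Taylor at a critical point -/
theorem osc (m : ℕ) (hm : 1 ≤ m) (t c : ℝ) (ht : t ∈ Icc (m : ℝ) (m + 2)) (hc : c ∈ Icc (m : ℝ) (m + 2))
    (h0 : deriv F (c : ℂ) = 0) : |fr t - fr c| ≤ (t - c) ^ 2 * SS m := by
  have hm' : (1 : ℝ) ≤ m := by exact_mod_cast hm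
  have hS := SS_nonneg m hm
  have hA : ∀ u ∈ Icc (m : ℝ) (m + 2), ‖deriv F (u : ℂ)‖ ≤ SS m * |u - c| := by
    intro u hu
    have := (convex_Icc (m : ℝ) (m + 2)).norm_image_sub_le_of_norm_hasDerivWithin_le
      (f := fun x : ℝ => deriv F (x : ℂ)) (f' := g2) (C := SS m)
      (fun x hx => ((F1_diff (x : ℂ) (by simp; linarith [hx.1])).hasDerivAt.comp_ofReal).hasDerivWithinAt)
      (fun x hx => SS_le m hm x hx) hc hu
    simp only [h0, sub_zero] at this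
    rwa [Real.norm_eq_abs] at this
  have hB : ‖F (t : ℂ) - F (c : ℂ)‖ ≤ (SS m * |t - c|) * |t - c| := by
    have hsub : uIcc c t ⊆ Icc (m : ℝ) (m + 2) := uIcc_subset_Icc hc ht
    have := (convex_uIcc c t).norm_image_sub_le_of_norm_hasDerivWithin_le
      (f := fun x : ℝ => F (x : ℂ)) (f' := fun x : ℝ => deriv F (x : ℂ)) (C := SS m * |t - c|)
      (fun x hx => ((F_diff0 (x : ℂ) (by simp; linarith [(hsub hx).1])).hasDerivAt.comp_ofReal).hasDerivWithinAt)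
      (fun x hx => by
        refine (hA x (hsub hx)).trans ?_
        refine mul_le_mul_of_nonneg_left ?_ hS
        exact abs_sub_left_of_mem_uIcc hx) left_mem_uIcc right_mem_uIcc
    rwa [Real.norm_eq_abs] at this
  rw [F_fr, F_fr, ← Complex.ofReal_sub, Complex.norm_real, Real.norm_eq_abs] at hB
  calc |fr t - fr c| ≤ (SS m * |t - c|) * |t - c| := hB
    _ = |t - c| ^ 2 * SS m := by ring
    _ = (t - c) ^ 2 * SS m := by rw [sq_abs]

/-- the critical points in `[m, m+2]` -/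
def critSet (m : ℕ) : Set ℝ := {x | x ∈ Icc (m : ℝ) (m + 2) ∧ deriv F (x : ℂ) = 0}

open Classical in
noncomputable def Crit (m : ℕ) : Finset ℝ := if h : (critSet m).Finite then h.toFinset else ∅

theorem crit_spec : ∃ C : ℝ, 1 ≤ C ∧ ∃ m₀ : ℕ, 4 ≤ m₀ ∧ ∀ m : ℕ, m₀ ≤ m →
    (∀ x ∈ critSet m, x ∈ Crit m) ∧ ((Crit m).card : ℝ) ≤ C * Real.log ((m : ℝ) + 1) := by
  obtain ⟨C, T₀, hC, hT, h⟩ := crit_card
  refine ⟨C, hC, ⌈T₀⌉₊ + 4, by omega, fun m hm => ?_⟩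
  have hm1 : T₀ ≤ (m : ℝ) + 1 := by
    have h1 := Nat.le_ceil T₀
    have h2 : ((⌈T₀⌉₊ : ℕ) : ℝ) ≤ m := by exact_mod_cast (by omega : ⌈T₀⌉₊ ≤ m)
    linarith
  have hZ : ∀ Z : Finset ℝ, (∀ x ∈ Z, x ∈ critSet m) → (Z.card : ℝ) ≤ C * Real.log ((m : ℝ) + 1) := by
    intro Z hZ
    refine h ((m : ℝ) + 1) hm1 Z fun x hx => ?_
    obtain ⟨h1, h2⟩ := hZ x hx
    refine ⟨abs_le.2 ⟨by linarith [h1.1], by linarith [h1.2]⟩, h2⟩
  have hfin : (critSet m).Finite := by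
    by_contra hinf
    have hinf' : (critSet m).Infinite := hinf
    obtain ⟨t, ht1, ht2⟩ := hinf'.exists_subset_card_eq (⌊C * Real.log ((m : ℝ) + 1)⌋₊ + 1)
    have h1 := hZ t (fun x hx => ht1 hx)
    rw [ht2] at h1
    have h2 := Nat.lt_floor_add_one (C * Real.log ((m : ℝ) + 1))
    push_cast at h1
    linarith
  rw [Crit, dif_pos hfin]
  exact ⟨fun x hx => hfin.mem_toFinset.2 hx, hZ _ fun x hx => hfin.mem_toFinset.1 hx⟩

/-- the levels `a ≥ 1/M` for which there are arbitrarily high solutions at distance at most `t^(-κ)` -/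
def Bad (κ : ℝ) (M : ℕ) : Set ℝ := {a | 1 ≤ (M : ℝ) * a ∧ ∀ T : ℝ, ∃ t t' : ℝ, T ≤ t ∧ t < t' ∧
  t' - t ≤ t ^ (-κ) ∧ ‖riemannZeta (1 / 2 + I * (t : ℂ))‖ = a ∧ ‖riemannZeta (1 / 2 + I * (t' : ℂ))‖ = a}

theorem bad_cover (κ : ℝ) (hκ : 0 < κ) (M m₀ : ℕ) (hm₀ : 4 ≤ m₀)
    (hC : ∀ m : ℕ, m₀ ≤ m → ∀ x ∈ critSet m, x ∈ Crit m) (a : ℝ) (ha : a ∈ Bad κ M) :
    ∃ᶠ n : ℕ in atTop, ∃ c ∈ Crit (n + m₀), a ∈ closedBall (√(fr c))
      ((M : ℝ) * (((n + m₀ : ℕ) : ℝ) ^ (-(2 * κ)) * SS (n + m₀))) := by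
  obtain ⟨ha1, ha2⟩ := ha
  have hM0 : (0 : ℝ) < M := by
    rcases Nat.eq_zero_or_pos M with h | h
    · rw [h, Nat.cast_zero, zero_mul] at ha1
      norm_num at ha1
    · exact_mod_cast h
  have ha0 : 0 < a := by
    by_contra hcon
    push Not at hcon
    nlinarith
  rw [frequently_atTop]
  intro N
  obtain ⟨t, t', h1, h2, h3, h4, h5⟩ := ha2 ((N + m₀ : ℕ) : ℝ)
  have hm4 : (4 : ℝ) ≤ m₀ := by exact_mod_cast hm₀
  have ht0 : (4 : ℝ) ≤ t := by
    push_cast at h1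
    have : (0 : ℝ) ≤ N := Nat.cast_nonneg _
    linarith
  have hfl : N + m₀ ≤ ⌊t⌋₊ := Nat.le_floor h1
  obtain ⟨n, hn⟩ : ∃ n : ℕ, n + m₀ = ⌊t⌋₊ := ⟨⌊t⌋₊ - m₀, by omega⟩
  refine ⟨n, by omega, ?_⟩
  obtain ⟨m, hm⟩ : ∃ m : ℕ, m = n + m₀ := ⟨_, rfl⟩
  rw [← hm] at hn ⊢
  have hm1 : (m : ℝ) ≤ t := by rw [hn]; exact Nat.floor_le (by linarith)
  have hm2 : t < (m : ℝ) + 1 := by rw [hn]; exact Nat.lt_floor_add_one t
  have hmm : 4 ≤ m := by omega
  have hm' : (4 : ℝ) ≤ m := by exact_mod_cast hmm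
  have ht1 : t ^ (-κ) ≤ 1 := Real.rpow_le_one_of_one_le_of_nonpos (by linarith) (by linarith)
  have htm : t ^ (-κ) ≤ (m : ℝ) ^ (-κ) := Real.rpow_le_rpow_of_nonpos (by linarith) hm1 (by linarith)
  obtain ⟨c, hc, hc0⟩ := rolle (t := t) (t' := t') (by linarith) h2 (by rw [fr, fr, h4, h5])
  have hcm : c ∈ Icc (m : ℝ) (m + 2) := ⟨by linarith [hc.1], by linarith [hc.2]⟩
  have htm' : t ∈ Icc (m : ℝ) (m + 2) := ⟨hm1, by linarith⟩
  refine ⟨c, hC m (by omega) c ⟨hcm, hc0⟩, ?_⟩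
  have ho := osc m (by omega) t c htm' hcm hc0
  have hS := SS_nonneg m (by omega)
  have hd : (t - c) ^ 2 ≤ (m : ℝ) ^ (-(2 * κ)) := by
    have e : (m : ℝ) ^ (-(2 * κ)) = ((m : ℝ) ^ (-κ)) ^ 2 := by
      rw [← Real.rpow_natCast, ← Real.rpow_mul (by linarith)]
      congr 1; push_cast; ring
    rw [e, ← sq_abs]
    have : |t - c| ≤ (m : ℝ) ^ (-κ) := by
      rw [abs_sub_comm, abs_of_pos (by linarith [hc.1])]
      linarith [hc.2]
    gcongr
  have hfr : fr t = a ^ 2 := by rw [fr, h4]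
  rw [hfr] at ho
  have hfc : 0 ≤ fr c := by unfold fr; positivity
  have hs0 := Real.sqrt_nonneg (fr c)
  have hs1 := Real.sq_sqrt hfc
  have hfac : a ^ 2 - fr c = (a - √(fr c)) * (a + √(fr c)) := by
    linear_combination hs1
  rw [hfac, abs_mul, abs_of_pos (by linarith : 0 < a + √(fr c))] at ho
  rw [mem_closedBall, Real.dist_eq]
  have h6 : |a - √(fr c)| * a ≤ (m : ℝ) ^ (-(2 * κ)) * SS m := by
    calc |a - √(fr c)| * a ≤ |a - √(fr c)| * (a + √(fr c)) := by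
          gcongr
          linarith
      _ ≤ (t - c) ^ 2 * SS m := ho
      _ ≤ _ := by gcongr
  calc |a - √(fr c)| = |a - √(fr c)| * 1 := by ring
    _ ≤ |a - √(fr c)| * ((M : ℝ) * a) := by gcongr
    _ = (M : ℝ) * (|a - √(fr c)| * a) := by ring
    _ ≤ _ := by gcongr

theorem bad_dim (κ D : ℝ) (hκ : 0 < κ) (hD0 : 0 < D) (hD1 : D ≤ 1) (hD : 1 < 2 * κ * D) (M : ℕ) :
    dimH (Bad κ M) ≤ ENNReal.ofReal D := by
  obtain ⟨C, hC, m₀, hm₀, hcr⟩ := crit_spec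
  obtain ⟨η, hη⟩ : ∃ η : ℝ, η = (2 * κ * D - 1) / 2 := ⟨_, rfl⟩
  have hη0 : 0 < η := by rw [hη]; linarith
  have hcore := Pool.Agent.N84.MD.core (X := ℝ) (ι := ℝ)
    (fun n c => closedBall (√(fr c)) ((M : ℝ) * (((n + m₀ : ℕ) : ℝ) ^ (-(2 * κ)) * SS (n + m₀))))
    D hD0 (fun n => Crit (n + m₀))
    (fun n => 2 * ((M : ℝ) * (((n + m₀ : ℕ) : ℝ) ^ (-(2 * κ)) * SS (n + m₀))))
    (fun n => by
      have := SS_nonneg (n + m₀) (by omega)
      positivity)
    (fun n i _ => by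
      have := SS_nonneg (n + m₀) (by omega)
      rw [Real.closedBall_eq_Icc, Real.ediam_Icc]
      apply ENNReal.ofReal_le_ofReal
      linarith)
    ?_
  · refine le_trans (dimH_mono ?_) hcore
    intro a ha
    exact bad_cover κ hκ M m₀ hm₀ (fun m hm => (hcr m hm).1) a ha
  · -- summability
    have hs := summ (2 * κ * D - η) (by rw [hη]; linarith)
    have hs1 := (summable_nat_add_iff m₀).2 hs
    refine Summable.of_nonneg_of_le (fun n => ?_) (fun n => ?_)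
      (hs1.mul_left (C * (2 / η) * (2 * (M : ℝ)) ^ D))
    · have := SS_nonneg (n + m₀) (by omega)
      positivity
    · obtain ⟨m, hm⟩ : ∃ m : ℕ, m = n + m₀ := ⟨_, rfl⟩
      rw [← hm]
      have hmm : m₀ ≤ m := by omega
      have hm4 : (4 : ℝ) ≤ m := by exact_mod_cast (by omega : 4 ≤ m)
      have hS := SS_nonneg m (by omega)
      have h1 := (hcr m hmm).2
      have h2 : Real.log ((m : ℝ) + 1) ≤ (2 / η) * (m : ℝ) ^ η := by
        have q1 : Real.log ((m : ℝ) + 1) ≤ Real.log ((m : ℝ) ^ 2) :=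
          Real.log_le_log (by linarith) (by nlinarith)
        rw [Real.log_pow] at q1
        have q2 := Real.log_le_rpow_div (x := (m : ℝ)) (ε := η) (by linarith) hη0
        push_cast at q1
        calc Real.log ((m : ℝ) + 1) ≤ 2 * Real.log m := q1
          _ ≤ 2 * ((m : ℝ) ^ η / η) := by gcongr
          _ = _ := by ring
      have h3 : (2 * ((M : ℝ) * ((m : ℝ) ^ (-(2 * κ)) * SS m))) ^ D ≤
          (2 * (M : ℝ)) ^ D * ((m : ℝ) ^ (-(2 * κ * D)) * (1 + |SS m|)) := by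
        have q1 : (SS m) ^ D ≤ 1 + |SS m| := by
          rw [abs_of_nonneg hS]
          rcases le_total (SS m) 1 with h | h
          · have := Real.rpow_le_one hS h hD0.le
            linarith
          · have := Real.rpow_le_rpow_of_exponent_le h hD1
            rw [Real.rpow_one] at this
            linarith
        have q2 : ((m : ℝ) ^ (-(2 * κ))) ^ D = (m : ℝ) ^ (-(2 * κ * D)) := by
          rw [← Real.rpow_mul (by linarith)]
          congr 1; ring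
        have q3 : (2 * ((M : ℝ) * ((m : ℝ) ^ (-(2 * κ)) * SS m))) ^ D =
            (2 * (M : ℝ)) ^ D * (((m : ℝ) ^ (-(2 * κ))) ^ D * (SS m) ^ D) := by
          rw [← Real.mul_rpow (by positivity) hS, ← Real.mul_rpow (by positivity) (by positivity)]
          congr 1; ring
        rw [q3, q2]
        gcongr
      have h4 : (m : ℝ) ^ η * (m : ℝ) ^ (-(2 * κ * D)) = (m : ℝ) ^ (-(2 * κ * D - η)) := by
        rw [← Real.rpow_add (by linarith)]
        congr 1; ring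
      calc ((Crit m).card : ℝ) * (2 * ((M : ℝ) * ((m : ℝ) ^ (-(2 * κ)) * SS m))) ^ D
          ≤ (C * ((2 / η) * (m : ℝ) ^ η)) * ((2 * (M : ℝ)) ^ D * ((m : ℝ) ^ (-(2 * κ * D)) * (1 + |SS m|))) := by
            refine mul_le_mul (h1.trans ?_) h3 (by positivity) (by positivity)
            gcongr
        _ = C * (2 / η) * (2 * (M : ℝ)) ^ D * (((m : ℝ) ^ η * (m : ℝ) ^ (-(2 * κ * D))) * (1 + |SS m|)) := by
            ring
        _ = _ := by rw [h4]

end Pool.Agent.V8H35.LV
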