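import Pool.Agent.V8H35.LV.GL2

set_option autoImplicit false

/-! The number of small gaps for almost every level. -/

namespace Pool.Agent.V8H35.LV

open Complex Metric Set MeasureTheory Filter Asymptotics
open scoped ENNReal

/-- the number of the solutions of `fr = b` in `[m, m+2]` is at most one more than that of the critical points -/
theorem sol_card (m : ℕ) (hm : 1 ≤ m) (hC : ∀ x ∈ critSet m, x ∈ Crit m) (b : ℝ) (Z : Finset ℝ)
    (hZ : ∀ t ∈ Z, t ∈ Icc (m : ℝ) (m + 2) ∧ fr t = b) : Z.card ≤ (Crit m).card + 1 := by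
  have hm' : (1 : ℝ) ≤ m := by exact_mod_cast hm
  rcases Z.eq_empty_or_nonempty with h | h
  · rw [h]; simp
  classical
  obtain ⟨x, hx⟩ : ∃ x : ℝ, x = Z.max' h := ⟨_, rfl⟩
  have hxZ : x ∈ Z := by rw [hx]; exact Z.max'_mem h
  have hxm : ∀ t ∈ Z, t ≤ x := by rw [hx]; exact fun t ht => Z.le_max' t ht
  have hex : ∀ t ∈ Z.erase x, ∃ c ∈ Crit m, t < c ∧ ∀ u ∈ Z, t < u → c < u := by
    intro t ht
    rw [Finset.mem_erase] at ht
    have hlt : t < x := lt_of_le_of_ne (hxm t ht.2) ht.1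
    have hne : (Z.filter fun u => t < u).Nonempty := ⟨x, Finset.mem_filter.2 ⟨hxZ, hlt⟩⟩
    obtain ⟨s, hs⟩ : ∃ s : ℝ, s = (Z.filter fun u => t < u).min' hne := ⟨_, rfl⟩
    have hsm : s ∈ Z.filter fun u => t < u := by rw [hs]; exact Finset.min'_mem _ hne
    rw [Finset.mem_filter] at hsm
    obtain ⟨h1, h2⟩ := hZ t ht.2
    obtain ⟨h3, h4⟩ := hZ s hsm.1
    obtain ⟨c, hc, hc0⟩ := rolle (t := t) (t' := s) (by linarith [h1.1]) hsm.2 (by rw [h2, h4])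
    refine ⟨c, hC c ⟨⟨by linarith [h1.1, hc.1], by linarith [h3.2, hc.2]⟩, hc0⟩, hc.1, fun u hu htu => ?_⟩
    have : s ≤ u := by rw [hs]; exact Finset.min'_le _ u (Finset.mem_filter.2 ⟨hu, htu⟩)
    linarith [hc.2]
  choose! c hc1 hc2 hc3 using hex
  have hcard : (Z.erase x).card ≤ (Crit m).card := by
    refine Finset.card_le_card_of_injOn c (fun t ht => hc1 t ht) ?_
    intro t ht s hs hts
    rcases lt_trichotomy t s with h1 | h1 | h1
    · have h2 := hc3 t ht s (Finset.mem_of_mem_erase hs) h1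
      have h3 := hc2 s hs
      rw [← hts] at h3
      linarith
    · exact h1
    · have h2 := hc3 s hs t (Finset.mem_of_mem_erase ht) h1
      have h3 := hc2 t ht
      rw [hts] at h3
      linarith
  rw [Finset.card_erase_of_mem hxZ] at hcard
  omega

/-- radius of the interval of levels around the critical value of a point `c` in `[m, m+2]` -/
noncomputable def rad (κ : ℝ) (M j m : ℕ) : ℝ := (M : ℝ) * ((2 : ℝ) ^ (-(2 * κ * j)) * SS m)

/-- number of the critical points near whose critical value the level `a` is -/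
noncomputable def nn (κ : ℝ) (M j : ℕ) (a : ℝ) : ℝ≥0∞ :=
  ∑ m ∈ Finset.Ico (2 ^ j) (2 ^ (j + 2)), ∑ c ∈ Crit m,
    (closedBall (√(fr c)) (rad κ M j m)).indicator (fun _ => (1 : ℝ≥0∞)) a

theorem nn_meas (κ : ℝ) (M j : ℕ) : Measurable (nn κ M j) := by
  unfold nn
  refine Finset.measurable_sum _ fun m _ => Finset.measurable_sum _ fun c _ => ?_
  exact measurable_const.indicator measurableSet_closedBall

theorem nn_lint (κ : ℝ) (M j : ℕ) : ∫⁻ a, nn κ M j a =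
    ∑ m ∈ Finset.Ico (2 ^ j) (2 ^ (j + 2)), ∑ c ∈ Crit m, ENNReal.ofReal (2 * rad κ M j m) := by
  unfold nn
  rw [lintegral_finsetSum _ fun m _ => Finset.measurable_sum _ fun c _ =>
    measurable_const.indicator measurableSet_closedBall]
  refine Finset.sum_congr rfl fun m _ => ?_
  rw [lintegral_finsetSum _ fun c _ => measurable_const.indicator measurableSet_closedBall]
  refine Finset.sum_congr rfl fun c _ => ?_
  rw [lintegral_indicator_const measurableSet_closedBall, one_mul, Real.volume_closedBall]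

/-- the mean of `nn` -/
theorem nn_mean (κ ε : ℝ) (hε : 0 < ε) (M : ℕ) : ∃ K : ℝ, 0 < K ∧ ∃ j₀ : ℕ, ∀ j : ℕ, j₀ ≤ j →
    ∫⁻ a, nn κ M j a ≤ ENNReal.ofReal (K * (2 : ℝ) ^ ((1 - 2 * κ + ε) * j)) := by
  obtain ⟨C, hC, m₀, hm₀, hcr⟩ := crit_spec
  obtain ⟨C', hC', hS⟩ := sup_sum (ε / 2) (by positivity)
  refine ⟨4 * (M + 1) * C * (2 / (ε / 2)) * 4 ^ (ε / 2) * C' * 4 ^ (1 + ε / 2), by positivity, m₀ + 2, fun j hj => ?_⟩
  have hj2 : j < 2 ^ j := Nat.lt_two_pow_self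
  have hm : ∀ m ∈ Finset.Ico (2 ^ j) (2 ^ (j + 2)), m₀ ≤ m ∧ 4 ≤ m ∧ (m : ℝ) ≤ 4 * 2 ^ j := by
    intro m hm
    rw [Finset.mem_Ico] at hm
    refine ⟨by omega, by omega, ?_⟩
    have h1 : (m : ℝ) ≤ ((2 ^ (j + 2) : ℕ) : ℝ) := by exact_mod_cast hm.2.le
    push_cast at h1
    rw [pow_add] at h1
    linarith
  have h2j : (1 : ℝ) ≤ 2 ^ j := one_le_pow₀ (by norm_num)
  -- the bound for the number of the critical points
  have hcard : ∀ m ∈ Finset.Ico (2 ^ j) (2 ^ (j + 2)), ((Crit m).card : ℝ) ≤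
      C * ((2 / (ε / 2)) * (4 * 2 ^ j) ^ (ε / 2)) := by
    intro m hm'
    obtain ⟨h1, h2, h3⟩ := hm m hm'
    have hm4 : (4 : ℝ) ≤ m := by exact_mod_cast h2
    refine (hcr m h1).2.trans ?_
    have q1 : Real.log ((m : ℝ) + 1) ≤ Real.log ((m : ℝ) ^ 2) :=
      Real.log_le_log (by linarith) (by nlinarith)
    rw [Real.log_pow] at q1
    have q2 := Real.log_le_rpow_div (x := (m : ℝ)) (ε := ε / 2) (by linarith) (by positivity)
    push_cast at q1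
    have q3 : (m : ℝ) ^ (ε / 2) ≤ (4 * 2 ^ j) ^ (ε / 2) := Real.rpow_le_rpow (by linarith) h3 (by positivity)
    have : Real.log ((m : ℝ) + 1) ≤ (2 / (ε / 2)) * (4 * 2 ^ j) ^ (ε / 2) := by
      calc Real.log ((m : ℝ) + 1) ≤ 2 * Real.log m := q1
        _ ≤ 2 * ((m : ℝ) ^ (ε / 2) / (ε / 2)) := by gcongr
        _ ≤ 2 * ((4 * 2 ^ j) ^ (ε / 2) / (ε / 2)) := by gcongr
        _ = _ := by ring
    gcongr
  rw [nn_lint]
  have hr : ∀ m ∈ Finset.Ico (2 ^ j) (2 ^ (j + 2)), 0 ≤ 2 * rad κ M j m := by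
    intro m hm'
    have := SS_nonneg m (by have := (hm m hm').2.1; omega)
    unfold rad
    positivity
  have e1 : ∑ m ∈ Finset.Ico (2 ^ j) (2 ^ (j + 2)), ∑ c ∈ Crit m, ENNReal.ofReal (2 * rad κ M j m) =
      ENNReal.ofReal (∑ m ∈ Finset.Ico (2 ^ j) (2 ^ (j + 2)), ((Crit m).card : ℝ) * (2 * rad κ M j m)) := by
    rw [ENNReal.ofReal_sum_of_nonneg fun m hm' => mul_nonneg (Nat.cast_nonneg _) (hr m hm')]
    refine Finset.sum_congr rfl fun m _ => ?_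
    rw [Finset.sum_const, nsmul_eq_mul, ENNReal.ofReal_mul (Nat.cast_nonneg _), ENNReal.ofReal_natCast]
  rw [e1]
  apply ENNReal.ofReal_le_ofReal
  have h1 : ∑ m ∈ Finset.Ico (2 ^ j) (2 ^ (j + 2)), ((Crit m).card : ℝ) * (2 * rad κ M j m) ≤
      ∑ m ∈ Finset.Ico (2 ^ j) (2 ^ (j + 2)), (C * ((2 / (ε / 2)) * (4 * 2 ^ j) ^ (ε / 2))) *
        (2 * ((M + 1) * (2 : ℝ) ^ (-(2 * κ * j)))) * SS m := by
    refine Finset.sum_le_sum fun m hm' => ?_
    have hSm := SS_nonneg m (by have := (hm m hm').2.1; omega)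
    calc ((Crit m).card : ℝ) * (2 * rad κ M j m) ≤
        (C * ((2 / (ε / 2)) * (4 * 2 ^ j) ^ (ε / 2))) * (2 * rad κ M j m) :=
          mul_le_mul_of_nonneg_right (hcard m hm') (hr m hm')
      _ ≤ (C * ((2 / (ε / 2)) * (4 * 2 ^ j) ^ (ε / 2))) * (2 * ((M + 1) * ((2 : ℝ) ^ (-(2 * κ * j)) * SS m))) := by
          unfold rad
          gcongr
          linarith
      _ = _ := by ring
  refine h1.trans ?_
  rw [← Finset.mul_sum]
  have h2 : ∑ m ∈ Finset.Ico (2 ^ j) (2 ^ (j + 2)), SS m ≤ C' * (4 * 2 ^ j) ^ (1 + ε / 2) := by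
    have h3 := hS (2 ^ (j + 2)) (by
      calc 4 = 2 ^ 2 := by norm_num
        _ ≤ 2 ^ (j + 2) := Nat.pow_le_pow_right (by norm_num) (by omega))
    have h4 : (((2 ^ (j + 2) : ℕ)) : ℝ) = 4 * 2 ^ j := by push_cast; rw [pow_add]; ring
    rw [h4] at h3
    refine le_trans (Finset.sum_le_sum_of_subset_of_nonneg ?_ ?_) h3
    · intro m hm'
      have := (hm m hm').2.1
      rw [Finset.mem_Ico] at hm' ⊢
      exact ⟨this, hm'.2⟩
    · intro m hm' _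
      rw [Finset.mem_Ico] at hm'
      exact SS_nonneg m (by omega)
  have hpos : 0 ≤ (C * ((2 / (ε / 2)) * (4 * 2 ^ j) ^ (ε / 2))) * (2 * ((M + 1) * (2 : ℝ) ^ (-(2 * κ * j)))) := by
    positivity
  refine (mul_le_mul_of_nonneg_left h2 hpos).trans ?_
  have e2 : ((4 : ℝ) * 2 ^ j) ^ (ε / 2) = 4 ^ (ε / 2) * (2 : ℝ) ^ (ε / 2 * j) := by
    rw [Real.mul_rpow (by norm_num) (by positivity), ← Real.rpow_natCast, ← Real.rpow_mul (by norm_num)]
    congr 2; ring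
  have e3 : ((4 : ℝ) * 2 ^ j) ^ (1 + ε / 2) = 4 ^ (1 + ε / 2) * (2 : ℝ) ^ ((1 + ε / 2) * j) := by
    rw [Real.mul_rpow (by norm_num) (by positivity), ← Real.rpow_natCast, ← Real.rpow_mul (by norm_num)]
    congr 2; ring
  have e4 : (2 : ℝ) ^ ((1 - 2 * κ + ε) * j) =
      (2 : ℝ) ^ (ε / 2 * j) * (2 : ℝ) ^ (-(2 * κ * j)) * (2 : ℝ) ^ ((1 + ε / 2) * j) := by
    rw [← Real.rpow_add (by norm_num), ← Real.rpow_add (by norm_num)]
    congr 1; ring
  rw [e2, e3, e4]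
  refine le_of_sub_nonneg ?_
  have : 4 * (M + 1) * C * (2 / (ε / 2)) * 4 ^ (ε / 2) * C' * 4 ^ (1 + ε / 2) *
      ((2 : ℝ) ^ (ε / 2 * j) * (2 : ℝ) ^ (-(2 * κ * j)) * (2 : ℝ) ^ ((1 + ε / 2) * j)) -
      C * (2 / (ε / 2) * (4 ^ (ε / 2) * (2 : ℝ) ^ (ε / 2 * j))) * (2 * ((M + 1) * (2 : ℝ) ^ (-(2 * κ * j)))) *
        (C' * (4 ^ (1 + ε / 2) * (2 : ℝ) ^ ((1 + ε / 2) * j))) =
      2 * (M + 1) * C * (2 / (ε / 2)) * 4 ^ (ε / 2) * C' * 4 ^ (1 + ε / 2) *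
      ((2 : ℝ) ^ (ε / 2 * j) * (2 : ℝ) ^ (-(2 * κ * j)) * (2 : ℝ) ^ ((1 + ε / 2) * j)) := by ring
  rw [this]
  positivity

/-- for almost every level `nn` is small -/
theorem nn_ae (κ ε : ℝ) (hε : 0 < ε) (M : ℕ) : ∀ᵐ a : ℝ, ∀ᶠ j : ℕ in atTop,
    nn κ M j a ≤ ENNReal.ofReal ((2 : ℝ) ^ ((1 - 2 * κ + ε) * j)) := by
  obtain ⟨K, hK, j₀, h⟩ := nn_mean κ (ε / 2) (by positivity) M
  have hB : ∀ j : ℕ, j₀ ≤ j → volume {a : ℝ | ENNReal.ofReal ((2 : ℝ) ^ ((1 - 2 * κ + ε) * j)) ≤ nn κ M j a} ≤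
      ENNReal.ofReal (K * ((2 : ℝ) ^ (-(ε / 2))) ^ j) := by
    intro j hj
    have h1 := mul_meas_ge_le_lintegral (μ := (volume : Measure ℝ)) (nn_meas κ M j)
      (ENNReal.ofReal ((2 : ℝ) ^ ((1 - 2 * κ + ε) * j)))
    have h2 := h1.trans (h j hj)
    have hp : (0 : ℝ) < (2 : ℝ) ^ ((1 - 2 * κ + ε) * j) := by positivity
    have e : K * (2 : ℝ) ^ ((1 - 2 * κ + ε / 2) * j) =
        (2 : ℝ) ^ ((1 - 2 * κ + ε) * j) * (K * ((2 : ℝ) ^ (-(ε / 2))) ^ j) := by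
      rw [← Real.rpow_natCast ((2 : ℝ) ^ (-(ε / 2))), ← Real.rpow_mul (by norm_num)]
      rw [mul_left_comm, ← Real.rpow_add (by norm_num)]
      congr 2; ring
    rw [e, ENNReal.ofReal_mul hp.le] at h2
    exact (ENNReal.mul_le_mul_iff_right (by simpa using hp) ENNReal.ofReal_ne_top).1 h2
  have hsum : ∑' j : ℕ, volume {a : ℝ | ENNReal.ofReal ((2 : ℝ) ^ ((1 - 2 * κ + ε) * ((j + j₀ : ℕ) : ℝ))) ≤
      nn κ M (j + j₀) a} ≠ ∞ := by
    have hq0 : (0 : ℝ) < (2 : ℝ) ^ (-(ε / 2)) := by positivity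
    have hq1 : (2 : ℝ) ^ (-(ε / 2)) < 1 := Real.rpow_lt_one_of_one_lt_of_neg (by norm_num) (by linarith)
    have hs : Summable fun j : ℕ => K * ((2 : ℝ) ^ (-(ε / 2))) ^ (j + j₀) :=
      ((summable_nat_add_iff j₀).2 (summable_geometric_of_lt_one hq0.le hq1)).mul_left K
    refine ne_top_of_le_ne_top ?_ (ENNReal.tsum_le_tsum fun j => hB (j + j₀) (by omega))
    rw [← ENNReal.ofReal_tsum_of_nonneg (fun j => by positivity) hs]
    exact ENNReal.ofReal_ne_top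
  have hae := ae_eventually_notMem hsum
  filter_upwards [hae] with a ha
  obtain ⟨N, hN⟩ := eventually_atTop.1 ha
  refine eventually_atTop.2 ⟨N + j₀, fun j hj => ?_⟩
  have h1 := hN (j - j₀) (by omega)
  have e : j - j₀ + j₀ = j := by omega
  rw [e] at h1
  simp only [not_le] at h1
  exact h1.le

end Pool.Agent.V8H35.LV
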