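import Pool.Agent.V8H35.LV.GL3

set_option autoImplicit false

/-! The number of small gaps for almost every level: conclusion. -/

namespace Pool.Agent.V8H35.LV

open Complex Metric Set MeasureTheory Filter Asymptotics
open scoped ENNReal

/-- two near solutions give a critical point with critical value near the level -/
theorem near_crit (m : ℕ) (hm : 4 ≤ m) (a : ℝ) (M : ℕ) (ha : 1 ≤ (M : ℝ) * a) (t t' d : ℝ)
    (h1 : (m : ℝ) ≤ t) (h2 : t < (m : ℝ) + 1) (h3 : t < t') (h4 : t' - t ≤ d) (hd : d ≤ 1)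
    (h5 : ‖riemannZeta (1 / 2 + I * (t : ℂ))‖ = a) (h6 : ‖riemannZeta (1 / 2 + I * (t' : ℂ))‖ = a) :
    ∃ c ∈ critSet m, a ∈ closedBall (√(fr c)) ((M : ℝ) * (d ^ 2 * SS m)) := by
  have hM0 : (0 : ℝ) < M := by
    rcases Nat.eq_zero_or_pos M with h | h
    · rw [h, Nat.cast_zero, zero_mul] at ha
      norm_num at ha
    · exact_mod_cast h
  have ha0 : 0 < a := by
    by_contra hcon
    push Not at hcon
    nlinarith
  have hm' : (4 : ℝ) ≤ m := by exact_mod_cast hm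
  obtain ⟨c, hc, hc0⟩ := rolle (t := t) (t' := t') (by linarith) h3 (by rw [fr, fr, h5, h6])
  have hcm : c ∈ Icc (m : ℝ) (m + 2) := ⟨by linarith [hc.1], by linarith [hc.2]⟩
  have htm' : t ∈ Icc (m : ℝ) (m + 2) := ⟨h1, by linarith⟩
  refine ⟨c, ⟨hcm, hc0⟩, ?_⟩
  have ho := osc m (by omega) t c htm' hcm hc0
  have hS := SS_nonneg m (by omega)
  have hdd : (t - c) ^ 2 ≤ d ^ 2 := by
    rw [← sq_abs]
    have : |t - c| ≤ d := by
      rw [abs_sub_comm, abs_of_pos (by linarith [hc.1])]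
      linarith [hc.2]
    gcongr
  have hfr : fr t = a ^ 2 := by rw [fr, h5]
  rw [hfr] at ho
  have hfc : 0 ≤ fr c := by unfold fr; positivity
  have hs0 := Real.sqrt_nonneg (fr c)
  have hs1 := Real.sq_sqrt hfc
  have hfac : a ^ 2 - fr c = (a - √(fr c)) * (a + √(fr c)) := by
    linear_combination hs1
  rw [hfac, abs_mul, abs_of_pos (by linarith : 0 < a + √(fr c))] at ho
  rw [mem_closedBall, Real.dist_eq]
  have h6 : |a - √(fr c)| * a ≤ d ^ 2 * SS m := by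
    calc |a - √(fr c)| * a ≤ |a - √(fr c)| * (a + √(fr c)) := by
          gcongr
          linarith
      _ ≤ (t - c) ^ 2 * SS m := ho
      _ ≤ _ := by gcongr
  calc |a - √(fr c)| = |a - √(fr c)| * 1 := by ring
    _ ≤ |a - √(fr c)| * ((M : ℝ) * a) := by gcongr
    _ = (M : ℝ) * (|a - √(fr c)| * a) := by ring
    _ ≤ _ := by gcongr

/-- the solutions in `[m, m+2]` -/
def solSet (a : ℝ) (m : ℕ) : Set ℝ := {t | t ∈ Icc (m : ℝ) (m + 2) ∧ fr t = a ^ 2}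

theorem solSet_fin (a : ℝ) (m : ℕ) (hm : 1 ≤ m) (hC : ∀ x ∈ critSet m, x ∈ Crit m) :
    (solSet a m).Finite ∧ (solSet a m).ncard ≤ (Crit m).card + 1 := by
  have hZ : ∀ Z : Finset ℝ, (∀ x ∈ Z, x ∈ solSet a m) → Z.card ≤ (Crit m).card + 1 :=
    fun Z hZ => sol_card m hm hC (a ^ 2) Z hZ
  have hfin : (solSet a m).Finite := by
    by_contra hinf
    have hinf' : (solSet a m).Infinite := hinf
    obtain ⟨t, ht1, ht2⟩ := hinf'.exists_subset_card_eq ((Crit m).card + 2)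
    have h1 := hZ t (fun x hx => ht1 hx)
    rw [ht2] at h1
    omega
  refine ⟨hfin, ?_⟩
  rw [Set.ncard_eq_toFinset_card _ hfin]
  exact hZ _ fun x hx => hfin.mem_toFinset.1 hx

/-- the solutions in `(X, 2X]` which have another solution to the right at distance at most `δ` -/
def close (a δ X : ℝ) : Set ℝ := {t | X < t ∧ t ≤ 2 * X ∧ ‖riemannZeta (1 / 2 + I * (t : ℂ))‖ = a ∧
  ∃ t' : ℝ, t < t' ∧ t' ≤ t + δ ∧ ‖riemannZeta (1 / 2 + I * (t' : ℂ))‖ = a}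

theorem close_count (κ ε : ℝ) (hκ : 0 ≤ κ) (hε : 0 < ε) (M : ℕ) (a : ℝ) (ha : 1 ≤ (M : ℝ) * a)
    (h : ∀ᶠ j : ℕ in atTop, nn κ M j a ≤ ENNReal.ofReal ((2 : ℝ) ^ ((1 - 2 * κ + ε) * j))) :
    ∃ X₀ : ℝ, ∀ X : ℝ, X₀ ≤ X → (close a (X ^ (-κ)) X).Finite ∧
      ((close a (X ^ (-κ)) X).ncard : ℝ) ≤ X ^ (1 - 2 * κ + 3 * ε) := by
  classical
  obtain ⟨C, hC, m₀, hm₀, hcr⟩ := crit_spec
  obtain ⟨J, hJ⟩ := eventually_atTop.1 h
  -- largeness
  have hlog : ∀ᶠ j : ℕ in atTop, C * Real.log ((2 : ℝ) ^ (j + 2) + 1) + 1 ≤ (2 : ℝ) ^ (ε * j) := by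
    have h1 : (fun j : ℕ => (j : ℝ)) =o[atTop] fun j : ℕ => ((2 : ℝ) ^ ε) ^ j :=
      isLittleO_coe_const_pow_of_one_lt (R := ℝ) (Real.one_lt_rpow (by norm_num) hε)
    have h2 := h1.def (c := (6 * C + 1)⁻¹) (by positivity)
    filter_upwards [h2, eventually_ge_atTop 1] with j hj hj1
    rw [Real.norm_of_nonneg (Nat.cast_nonneg _), Real.norm_of_nonneg (by positivity)] at hj
    have hj1' : (1 : ℝ) ≤ j := by exact_mod_cast hj1
    have e1 : ((2 : ℝ) ^ ε) ^ j = (2 : ℝ) ^ (ε * j) := by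
      rw [← Real.rpow_natCast, ← Real.rpow_mul (by norm_num)]
    rw [e1, inv_mul_eq_div, le_div_iff₀ (by positivity)] at hj
    have h3 : Real.log ((2 : ℝ) ^ (j + 2) + 1) ≤ (j + 3 : ℝ) := by
      have h4 : (2 : ℝ) ^ (j + 2) + 1 ≤ 2 ^ (j + 3) := by
        have : (1 : ℝ) ≤ 2 ^ (j + 2) := one_le_pow₀ (by norm_num)
        rw [pow_succ 2 (j + 2)]
        linarith
      have h5 : Real.log ((2 : ℝ) ^ (j + 2) + 1) ≤ Real.log (2 ^ (j + 3)) := Real.log_le_log (by positivity) h4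
      rw [Real.log_pow] at h5
      push_cast at h5
      have h6 := Real.log_two_lt_d9
      nlinarith
    have h7 : C * Real.log ((2 : ℝ) ^ (j + 2) + 1) ≤ C * (j + 3 : ℝ) := by gcongr
    nlinarith
  obtain ⟨J2, hJ2⟩ := eventually_atTop.1 hlog
  obtain ⟨e, he⟩ : ∃ e : ℝ, e = 1 - 2 * κ + 2 * ε := ⟨_, rfl⟩
  have hXe : ∀ᶠ X : ℝ in atTop, (2 : ℝ) ^ |e| ≤ X ^ ε := (tendsto_rpow_atTop hε).eventually_ge_atTop _
  obtain ⟨X1, hX1⟩ := eventually_atTop.1 hXe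
  refine ⟨max (max X1 1) (2 ^ (J + J2 + m₀ + 1)), fun X hX => ?_⟩
  have hXX1 : X1 ≤ X := le_trans (le_trans (le_max_left _ _) (le_max_left _ _)) hX
  have hX1' : 1 ≤ X := le_trans (le_trans (le_max_right _ _) (le_max_left _ _)) hX
  have hXJ : (2 : ℝ) ^ (J + J2 + m₀ + 1) ≤ X := le_trans (le_max_right _ _) hX
  obtain ⟨j, hj⟩ : ∃ j : ℕ, j = Nat.log 2 ⌊X⌋₊ := ⟨_, rfl⟩
  have hfl0 : ⌊X⌋₊ ≠ 0 := by
    have : 0 < ⌊X⌋₊ := Nat.floor_pos.2 hX1'
    omega
  have hj1 : (2 : ℝ) ^ j ≤ X := by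
    have h1 := Nat.pow_log_le_self 2 hfl0
    rw [← hj] at h1
    have h2 : ((2 ^ j : ℕ) : ℝ) ≤ (⌊X⌋₊ : ℝ) := by exact_mod_cast h1
    push_cast at h2
    exact h2.trans (Nat.floor_le (by linarith))
  have hj2 : X < (2 : ℝ) ^ (j + 1) := by
    have h1 := Nat.lt_pow_succ_log_self (b := 2) (by norm_num) ⌊X⌋₊
    rw [← hj] at h1
    have h2 : X < ((2 ^ (j + 1) : ℕ) : ℝ) := by
      rw [← Nat.floor_lt (by linarith)]
      exact h1
    push_cast at h2
    exact h2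
  have hjJ : J + J2 + m₀ ≤ j := by
    have h1 : (2 : ℝ) ^ (J + J2 + m₀ + 1) < 2 ^ (j + 1) := lt_of_le_of_lt hXJ hj2
    have h2 := (pow_lt_pow_iff_right₀ (by norm_num : (1 : ℝ) < 2)).1 h1
    omega
  have hjlt : j < 2 ^ j := Nat.lt_two_pow_self
  -- the bad intervals
  obtain ⟨B, hB⟩ : ∃ B : Finset ℕ, B = (Finset.Ico (2 ^ j) (2 ^ (j + 2))).filter fun m =>
      ∃ c ∈ Crit m, a ∈ closedBall (√(fr c)) (rad κ M j m) := ⟨_, rfl⟩
  have hδ : X ^ (-κ) ≤ (2 : ℝ) ^ (-(κ * j)) := by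
    have h1 : X ^ (-κ) ≤ ((2 : ℝ) ^ j) ^ (-κ) := Real.rpow_le_rpow_of_nonpos (by positivity) hj1 (by linarith)
    rw [← Real.rpow_natCast, ← Real.rpow_mul (by norm_num)] at h1
    refine h1.trans (le_of_eq ?_)
    congr 1; ring
  have hδ1 : X ^ (-κ) ≤ 1 := Real.rpow_le_one_of_one_le_of_nonpos hX1' (by linarith)
  have hδ0 : 0 ≤ X ^ (-κ) := by positivity
  have hsub : close a (X ^ (-κ)) X ⊆ ⋃ m ∈ B, solSet a m := by
    rintro t ⟨h1, h2, h3, t', h4, h5, h6⟩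
    have ht0 : 0 ≤ t := by linarith
    obtain ⟨m, hm⟩ : ∃ m : ℕ, m = ⌊t⌋₊ := ⟨_, rfl⟩
    have hmt : (m : ℝ) ≤ t := by rw [hm]; exact Nat.floor_le ht0
    have hmt2 : t < (m : ℝ) + 1 := by rw [hm]; exact Nat.lt_floor_add_one t
    have hm1 : 2 ^ j ≤ m := by
      rw [hm]
      refine Nat.le_floor ?_
      push_cast
      linarith
    have hm2 : m < 2 ^ (j + 2) := by
      have : (m : ℝ) < ((2 ^ (j + 2) : ℕ) : ℝ) := by
        push_cast
        rw [pow_succ]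
        linarith
      exact_mod_cast this
    obtain ⟨c, hc, hca⟩ := near_crit m (by omega) a M ha t t' (X ^ (-κ)) hmt hmt2 h4 (by linarith) hδ1 h3 h6
    rw [mem_iUnion₂]
    refine ⟨m, ?_, ⟨⟨hmt, by linarith⟩, by rw [fr, h3]⟩⟩
    rw [hB, Finset.mem_filter, Finset.mem_Ico]
    refine ⟨⟨hm1, hm2⟩, c, (hcr m (by omega)).1 c hc, ?_⟩
    refine closedBall_subset_closedBall ?_ hca
    have hS := SS_nonneg m (by omega)
    unfold rad
    have : (X ^ (-κ)) ^ 2 ≤ (2 : ℝ) ^ (-(2 * κ * j)) := by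
      calc (X ^ (-κ)) ^ 2 ≤ ((2 : ℝ) ^ (-(κ * j))) ^ 2 := by gcongr
        _ = _ := by
          rw [← Real.rpow_natCast, ← Real.rpow_mul (by norm_num)]
          congr 1; push_cast; ring
    gcongr
  -- number of the bad intervals
  have hBc : (B.card : ℝ) ≤ (2 : ℝ) ^ ((1 - 2 * κ + ε) * j) := by
    have h1 : (B.card : ℝ≥0∞) ≤ nn κ M j a := by
      have h2 : ∑ m ∈ B, (1 : ℝ≥0∞) ≤ ∑ m ∈ B, ∑ c ∈ Crit m,
          (closedBall (√(fr c)) (rad κ M j m)).indicator (fun _ => (1 : ℝ≥0∞)) a := by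
        refine Finset.sum_le_sum fun m hm => ?_
        rw [hB, Finset.mem_filter] at hm
        obtain ⟨_, c, hc, hca⟩ := hm
        have h3 : (closedBall (√(fr c)) (rad κ M j m)).indicator (fun _ => (1 : ℝ≥0∞)) a = 1 :=
          indicator_of_mem hca _
        exact h3.symm.le.trans (Finset.single_le_sum (f := fun c => (closedBall (√(fr c)) (rad κ M j m)).indicator
          (fun _ => (1 : ℝ≥0∞)) a) (fun _ _ => zero_le) hc)
      rw [Finset.sum_const, nsmul_eq_mul, mul_one] at h2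
      refine h2.trans ?_
      unfold nn
      refine Finset.sum_le_sum_of_subset ?_
      rw [hB]
      exact Finset.filter_subset _ _
    have h2 := h1.trans (hJ j (by omega))
    rw [← ENNReal.ofReal_natCast, ENNReal.ofReal_le_ofReal_iff (by positivity)] at h2
    exact h2
  have hfinm : ∀ m ∈ B, (solSet a m).Finite ∧ ((solSet a m).ncard : ℝ) ≤ (2 : ℝ) ^ (ε * j) := by
    intro m hm
    rw [hB, Finset.mem_filter, Finset.mem_Ico] at hm
    obtain ⟨hm1, _⟩ := hm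
    obtain ⟨h1, h2⟩ := solSet_fin a m (by omega) (hcr m (by omega)).1
    refine ⟨h1, ?_⟩
    have h3 : ((solSet a m).ncard : ℝ) ≤ (Crit m).card + 1 := by exact_mod_cast h2
    have h4 := (hcr m (by omega)).2
    have h5 : Real.log ((m : ℝ) + 1) ≤ Real.log ((2 : ℝ) ^ (j + 2) + 1) := by
      refine Real.log_le_log (by positivity) ?_
      have : (m : ℝ) < ((2 ^ (j + 2) : ℕ) : ℝ) := by exact_mod_cast hm1.2
      push_cast at this
      linarith
    have h6 := hJ2 j (by omega)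
    have h7 : C * Real.log ((m : ℝ) + 1) ≤ C * Real.log ((2 : ℝ) ^ (j + 2) + 1) := by gcongr
    linarith
  have hfin : (⋃ m ∈ B, solSet a m).Finite := B.finite_toSet.biUnion fun m hm => (hfinm m hm).1
  refine ⟨hfin.subset hsub, ?_⟩
  have h1 : (close a (X ^ (-κ)) X).ncard ≤ (⋃ m ∈ B, solSet a m).ncard := Set.ncard_le_ncard hsub hfin
  have h2 : (⋃ m ∈ B, solSet a m).ncard ≤ ∑ m ∈ B, (solSet a m).ncard := by
    have := Finset.set_ncard_biUnion_le B (solSet a)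
    exact this
  have h3 : ((close a (X ^ (-κ)) X).ncard : ℝ) ≤ ∑ m ∈ B, ((solSet a m).ncard : ℝ) := by
    exact_mod_cast h1.trans h2
  have h4 : ∑ m ∈ B, ((solSet a m).ncard : ℝ) ≤ B.card * (2 : ℝ) ^ (ε * j) := by
    refine (Finset.sum_le_sum fun m hm => (hfinm m hm).2).trans ?_
    rw [Finset.sum_const, nsmul_eq_mul]
  have h5 : (B.card : ℝ) * (2 : ℝ) ^ (ε * j) ≤ (2 : ℝ) ^ (e * j) := by
    calc (B.card : ℝ) * (2 : ℝ) ^ (ε * j) ≤ (2 : ℝ) ^ ((1 - 2 * κ + ε) * j) * (2 : ℝ) ^ (ε * j) := by gcongr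
      _ = _ := by
        rw [← Real.rpow_add (by norm_num), he]
        congr 1; ring
  have h6 : (2 : ℝ) ^ (e * j) ≤ (2 : ℝ) ^ |e| * X ^ e := by
    rcases le_total 0 e with hh | hh
    · have h7 : (2 : ℝ) ^ (e * j) ≤ X ^ e := by
        have := Real.rpow_le_rpow (by positivity) hj1 hh
        rw [← Real.rpow_natCast, ← Real.rpow_mul (by norm_num)] at this
        rwa [mul_comm]
      have h8 : (1 : ℝ) ≤ (2 : ℝ) ^ |e| := Real.one_le_rpow (by norm_num) (abs_nonneg _)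
      have h9 : 0 ≤ X ^ e := by positivity
      nlinarith
    · have h7 : ((2 : ℝ) ^ (j + 1)) ^ e ≤ X ^ e := Real.rpow_le_rpow_of_nonpos (by linarith) hj2.le hh
      rw [← Real.rpow_natCast, ← Real.rpow_mul (by norm_num)] at h7
      have h8 : (2 : ℝ) ^ (e * j) = (2 : ℝ) ^ |e| * (2 : ℝ) ^ (((j + 1 : ℕ) : ℝ) * e) := by
        rw [← Real.rpow_add (by norm_num), abs_of_nonpos hh]
        congr 1; push_cast; ring
      rw [h8]
      gcongr
  have h7 : (2 : ℝ) ^ |e| * X ^ e ≤ X ^ (1 - 2 * κ + 3 * ε) := by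
    calc (2 : ℝ) ^ |e| * X ^ e ≤ X ^ ε * X ^ e := by
          gcongr
          exact hX1 X hXX1
      _ = _ := by
        rw [← Real.rpow_add (by linarith), he]
        congr 1; ring
  linarith

end Pool.Agent.V8H35.LV
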