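import Pool.Agent.V8H35.LV.FP

set_option autoImplicit false

/-! Sums of the maxima of the second derivative of `F` on the intervals `[m, m+2]`. -/

namespace Pool.Agent.V8H35.LV

open Complex Metric Set MeasureTheory intervalIntegral

theorem F_diff0 (z : ℂ) (hz : 0 < z.re) : DifferentiableAt ℂ F z := by
  have h1 : (1 / 2 + I * z : ℂ) ≠ 1 := by
    intro h
    have := congrArg Complex.im h
    simp at this
    linarith
  have h2 : (1 / 2 - I * z : ℂ) ≠ 1 := by
    intro h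
    have := congrArg Complex.im h
    simp at this
    linarith
  have h3 := differentiableAt_riemannZeta h1
  have h4 := differentiableAt_riemannZeta h2
  have h5 : DifferentiableAt ℂ (fun z : ℂ => riemannZeta (1 / 2 + I * z)) z :=
    DifferentiableAt.comp z (g := riemannZeta) (f := fun z : ℂ => 1 / 2 + I * z) h3 (by fun_prop)
  have h6 : DifferentiableAt ℂ (fun z : ℂ => riemannZeta (1 / 2 - I * z)) z :=
    DifferentiableAt.comp z (g := riemannZeta) (f := fun z : ℂ => 1 / 2 - I * z) h4 (by fun_prop)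
  exact h5.mul h6

theorem half_open : IsOpen {z : ℂ | 0 < z.re} := isOpen_lt continuous_const Complex.continuous_re

theorem F_on : DifferentiableOn ℂ F {z : ℂ | 0 < z.re} := fun z hz => (F_diff0 z hz).differentiableWithinAt

theorem F1_on : DifferentiableOn ℂ (deriv F) {z : ℂ | 0 < z.re} := F_on.deriv half_open

theorem F2_on : DifferentiableOn ℂ (deriv (deriv F)) {z : ℂ | 0 < z.re} := F1_on.deriv half_open

theorem F3_on : DifferentiableOn ℂ (deriv (deriv (deriv F))) {z : ℂ | 0 < z.re} := F2_on.deriv half_open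

theorem F1_diff (z : ℂ) (hz : 0 < z.re) : DifferentiableAt ℂ (deriv F) z :=
  F1_on.differentiableAt (half_open.mem_nhds hz)

theorem F2_diff (z : ℂ) (hz : 0 < z.re) : DifferentiableAt ℂ (deriv (deriv F)) z :=
  F2_on.differentiableAt (half_open.mem_nhds hz)

theorem F3_diff (z : ℂ) (hz : 0 < z.re) : DifferentiableAt ℂ (deriv (deriv (deriv F))) z :=
  F3_on.differentiableAt (half_open.mem_nhds hz)

/-- L1 norms of the second and the third derivative on the real line -/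
theorem L1_23 (ε : ℝ) (hε : 0 < ε) : ∃ C : ℝ, 0 < C ∧ ∀ b : ℝ, 4 ≤ b →
    ∫ x in (4 : ℝ)..b, ‖deriv (deriv F) ((x : ℂ) + ((0 : ℝ) : ℂ) * I)‖ ≤ C * b ^ (1 + ε) ∧
    ∫ x in (4 : ℝ)..b, ‖deriv (deriv (deriv F)) ((x : ℂ) + ((0 : ℝ) : ℂ) * I)‖ ≤ C * b ^ (1 + ε) := by
  obtain ⟨ρ, hρ⟩ : ∃ ρ : ℝ, ρ = min (ε / 6) (1 / 3) := ⟨_, rfl⟩
  have hρ0 : 0 < ρ := by rw [hρ]; positivity
  have hρ1 : ρ ≤ ε / 6 := by rw [hρ]; exact min_le_left _ _
  have hρ2 : ρ ≤ 1 / 3 := by rw [hρ]; exact min_le_right _ _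
  obtain ⟨C, hC, hF⟩ := F_mean (ε / 2) (by positivity)
  refine ⟨C * 2 ^ (1 + ε) / ρ ^ 3, by positivity, fun b hb => ?_⟩
  obtain ⟨B, hB⟩ : ∃ B : ℝ, B = C * (b + 3 * ρ) ^ (1 + ε) := ⟨_, rfl⟩
  have hB0 : 0 < B := by rw [hB]; positivity
  have hBb : B ≤ C * 2 ^ (1 + ε) * b ^ (1 + ε) := by
    rw [hB, mul_assoc, ← Real.mul_rpow (by norm_num) (by linarith)]
    gcongr
    linarith
  have s0 : ∀ y : ℝ, |y| ≤ 3 * ρ → y ≠ 0 → ∫ x in (4 - 2 * ρ - ρ)..(b + 2 * ρ + ρ), ‖F ((x : ℂ) + (y : ℂ) * I)‖ ≤ B := by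
    intro y hy hy0
    have h1 := hF y (b + 3 * ρ) (by linarith) hy0 (by linarith)
    have hc1 : ContinuousOn (fun x : ℝ => ‖F ((x : ℂ) + (y : ℂ) * I)‖) (Icc 1 (b + 3 * ρ)) := by
      intro x hx
      have h1 : ContinuousAt F ((x : ℂ) + (y : ℂ) * I) := (F_diff _ (by simpa using hx.1)).continuousAt
      exact (ContinuousAt.comp (g := fun z => ‖F z‖) (f := fun x : ℝ => ((x : ℂ) + (y : ℂ) * I))
        h1.norm (by fun_prop)).continuousWithinAt
    calc ∫ x in (4 - 2 * ρ - ρ)..(b + 2 * ρ + ρ), ‖F ((x : ℂ) + (y : ℂ) * I)‖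
        ≤ ∫ x in (1 : ℝ)..(b + 3 * ρ), ‖F ((x : ℂ) + (y : ℂ) * I)‖ := by
          refine intervalIntegral.integral_mono_interval (by linarith) (by linarith) (by linarith)
            (Filter.Eventually.of_forall fun x => norm_nonneg _) ?_
          exact ContinuousOn.intervalIntegrable (by rwa [uIcc_of_le (by linarith)])
      _ ≤ C * (b + 3 * ρ) ^ (1 + ε / 2 + |y|) := h1
      _ ≤ C * (b + 3 * ρ) ^ (1 + ε) :=
          mul_le_mul_of_nonneg_left (Real.rpow_le_rpow_of_exponent_le (by linarith) (by linarith)) hC.le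
      _ = B := hB.symm
  have s1 := deriv_L1 (G := F) (r := ρ) (η := 3 * ρ) (a := 4 - 2 * ρ) (b := b + 2 * ρ) (B := B) hρ0
    (by linarith) (by linarith) F_diff s0
  have s2 := deriv_L1 (G := deriv F) (r := ρ) (η := 2 * ρ) (a := 4 - ρ) (b := b + ρ) (B := B / ρ) hρ0
    (by linarith) (by linarith) (fun z hz => F1_diff z (by linarith)) (by
      intro y hy _
      have e1 : 4 - ρ - ρ = 4 - 2 * ρ := by ring
      have e2 : b + ρ + ρ = b + 2 * ρ := by ring
      rw [e1, e2]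
      exact s1 y (by linarith))
  have s3 := deriv_L1 (G := deriv (deriv F)) (r := ρ) (η := ρ) (a := 4) (b := b) (B := B / ρ / ρ) hρ0
    (by linarith) (by linarith) (fun z hz => F2_diff z (by linarith)) (by
      intro y hy _
      exact s2 y (by linarith))
  have t2 := s2 0 (by rw [abs_zero]; linarith)
  have t3 := s3 0 (by rw [abs_zero]; linarith)
  have hfin : B / ρ / ρ / ρ ≤ C * 2 ^ (1 + ε) / ρ ^ 3 * b ^ (1 + ε) := by
    rw [div_div, div_div, div_mul_eq_mul_div]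
    have : ρ * (ρ * ρ) = ρ ^ 3 := by ring
    rw [this]
    gcongr
  have hfin2 : B / ρ / ρ ≤ B / ρ / ρ / ρ := by
    rw [le_div_iff₀ hρ0]
    have : 0 ≤ B / ρ / ρ := by positivity
    nlinarith
  refine ⟨?_, t3.trans hfin⟩
  refine le_trans ?_ (hfin2.trans hfin)
  refine le_trans ?_ t2
  have hc2 : ContinuousOn (fun x : ℝ => ‖deriv (deriv F) ((x : ℂ) + ((0 : ℝ) : ℂ) * I)‖) (Icc (4 - ρ) (b + ρ)) := by
    intro x hx
    have h1 : ContinuousAt (deriv (deriv F)) ((x : ℂ) + ((0 : ℝ) : ℂ) * I) :=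
      (F2_diff _ (by simp; linarith [hx.1])).continuousAt
    exact (ContinuousAt.comp (g := fun z => ‖deriv (deriv F) z‖) (f := fun x : ℝ => ((x : ℂ) + ((0 : ℝ) : ℂ) * I))
      h1.norm (by fun_prop)).continuousWithinAt
  refine intervalIntegral.integral_mono_interval (by linarith) (by linarith) (by linarith)
    (Filter.Eventually.of_forall fun x => norm_nonneg _) ?_
  exact ContinuousOn.intervalIntegrable (by rwa [uIcc_of_le (by linarith)])

/-- the second derivative on the real line -/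
noncomputable def g2 (x : ℝ) : ℂ := deriv (deriv F) (x : ℂ)

noncomputable def g3 (x : ℝ) : ℂ := deriv (deriv (deriv F)) (x : ℂ)

theorem g2_deriv (x : ℝ) (hx : 0 < x) : HasDerivAt g2 (g3 x) x :=
  (F2_diff (x : ℂ) (by simpa using hx)).hasDerivAt.comp_ofReal

theorem g2_cont (x : ℝ) (hx : 0 < x) : ContinuousAt g2 x := (g2_deriv x hx).continuousAt

theorem g3_cont (x : ℝ) (hx : 0 < x) : ContinuousAt g3 x :=
  (F3_diff (x : ℂ) (by simpa using hx)).hasDerivAt.comp_ofReal.continuousAt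

theorem sobolev (a : ℝ) (ha : 0 < a) (t : ℝ) (ht : t ∈ Icc a (a + 2)) :
    ‖g2 t‖ ≤ ∫ x in a..(a + 2), (‖g2 x‖ + ‖g3 x‖) := by
  have hab : a ≤ a + 2 := by linarith
  have hc2 : ContinuousOn (fun x => ‖g2 x‖) (uIcc a (a + 2)) := by
    rw [uIcc_of_le hab]
    exact fun x hx => (g2_cont x (by linarith [hx.1])).norm.continuousWithinAt
  have hc3 : ContinuousOn (fun x => ‖g3 x‖) (uIcc a (a + 2)) := by
    rw [uIcc_of_le hab]
    exact fun x hx => (g3_cont x (by linarith [hx.1])).norm.continuousWithinAt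
  have i2 : IntervalIntegrable (fun x => ‖g2 x‖) volume a (a + 2) := hc2.intervalIntegrable
  have i3 : IntervalIntegrable (fun x => ‖g3 x‖) volume a (a + 2) := hc3.intervalIntegrable
  have hpt : ∀ u ∈ Icc a (a + 2), ‖g2 t‖ ≤ ‖g2 u‖ + ∫ x in a..(a + 2), ‖g3 x‖ := by
    intro u hu
    have h1 : ∫ x in u..t, g3 x = g2 t - g2 u := by
      refine intervalIntegral.integral_eq_sub_of_hasDerivAt (fun x hx => g2_deriv x ?_) ?_
      · have := (uIcc_subset_Icc hu ht hx).1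
        linarith
      · refine ContinuousOn.intervalIntegrable fun x hx => (g3_cont x ?_).continuousWithinAt
        have := (uIcc_subset_Icc hu ht hx).1
        linarith
    have h2 : ‖∫ x in u..t, g3 x‖ ≤ ∫ x in a..(a + 2), ‖g3 x‖ := by
      refine (intervalIntegral.norm_integral_le_abs_integral_norm).trans ?_
      rw [abs_le]
      have hnn : 0 ≤ᵐ[volume.restrict (Ioc a (a + 2))] fun x => ‖g3 x‖ :=
        Filter.Eventually.of_forall fun x => norm_nonneg _
      rcases le_total u t with h | h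
      · have h3 : 0 ≤ ∫ x in u..t, ‖g3 x‖ := intervalIntegral.integral_nonneg h fun x _ => norm_nonneg _
        have h4 := intervalIntegral.integral_mono_interval (μ := volume) hu.1 h ht.2 hnn i3
        constructor <;> linarith
      · have h3 : 0 ≤ ∫ x in t..u, ‖g3 x‖ := intervalIntegral.integral_nonneg h fun x _ => norm_nonneg _
        have h4 := intervalIntegral.integral_mono_interval (μ := volume) ht.1 h hu.2 hnn i3
        have h5 : ∫ x in u..t, ‖g3 x‖ = -∫ x in t..u, ‖g3 x‖ := intervalIntegral.integral_symm _ _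
        constructor <;> linarith
    rw [h1] at h2
    have h3 := norm_sub_norm_le (g2 t) (g2 u)
    linarith
  have h6 := intervalIntegral.integral_mono_on hab (μ := volume) intervalIntegrable_const
    (i2.add intervalIntegrable_const) hpt
  rw [intervalIntegral.integral_add i2 intervalIntegrable_const, intervalIntegral.integral_const,
    intervalIntegral.integral_const, smul_eq_mul, smul_eq_mul] at h6
  rw [intervalIntegral.integral_add i2 i3]
  have h7 : 0 ≤ ∫ x in a..(a + 2), ‖g2 x‖ := intervalIntegral.integral_nonneg hab fun x _ => norm_nonneg _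
  have h8 : 0 ≤ ∫ x in a..(a + 2), ‖g3 x‖ := intervalIntegral.integral_nonneg hab fun x _ => norm_nonneg _
  have h9 : a + 2 - a = 2 := by ring
  rw [h9] at h6
  linarith

/-- the maximum of the second derivative on `[m, m+2]` -/
noncomputable def SS (m : ℕ) : ℝ := sSup ((fun x : ℝ => ‖g2 x‖) '' Icc (m : ℝ) (m + 2))

theorem SS_attained (m : ℕ) (hm : 1 ≤ m) : ∃ t ∈ Icc (m : ℝ) (m + 2), SS m = ‖g2 t‖ := by
  have hm' : (1 : ℝ) ≤ m := by exact_mod_cast hm
  have hc : ContinuousOn (fun x : ℝ => ‖g2 x‖) (Icc (m : ℝ) (m + 2)) :=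
    fun x hx => (g2_cont x (by linarith [hx.1])).norm.continuousWithinAt
  obtain ⟨t, ht, he⟩ := isCompact_Icc.exists_sSup_image_eq (nonempty_Icc.2 (by linarith)) hc
  exact ⟨t, ht, he⟩

theorem SS_le (m : ℕ) (hm : 1 ≤ m) (x : ℝ) (hx : x ∈ Icc (m : ℝ) (m + 2)) : ‖g2 x‖ ≤ SS m := by
  have hm' : (1 : ℝ) ≤ m := by exact_mod_cast hm
  have hc : ContinuousOn (fun x : ℝ => ‖g2 x‖) (Icc (m : ℝ) (m + 2)) :=
    fun x hx => (g2_cont x (by linarith [hx.1])).norm.continuousWithinAt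
  exact le_csSup (isCompact_Icc.image_of_continuousOn hc).bddAbove (mem_image_of_mem _ hx)

theorem SS_nonneg (m : ℕ) (hm : 1 ≤ m) : 0 ≤ SS m := by
  obtain ⟨t, _, h⟩ := SS_attained m hm
  rw [h]; exact norm_nonneg _

theorem sup_sum (ε : ℝ) (hε : 0 < ε) : ∃ C : ℝ, 0 < C ∧ ∀ M : ℕ, 4 ≤ M →
    ∑ m ∈ Finset.Ico 4 M, SS m ≤ C * (M : ℝ) ^ (1 + ε) := by
  obtain ⟨C, hC, h⟩ := L1_23 ε hε
  refine ⟨2 * (2 * (C * 2 ^ (1 + ε))), by positivity, fun M hM => ?_⟩
  have hM' : (4 : ℝ) ≤ M := by exact_mod_cast hM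
  have hii : ∀ a b : ℝ, 0 < a → 0 < b → IntervalIntegrable (fun x => ‖g2 x‖ + ‖g3 x‖) volume a b := by
    intro a b ha hb
    refine ContinuousOn.intervalIntegrable fun x hx => ?_
    have hx0 : 0 < x := by
      have := hx.1
      have h2 : 0 < min a b := lt_min ha hb
      exact lt_of_lt_of_le h2 this
    exact ((g2_cont x hx0).norm.add (g3_cont x hx0).norm).continuousWithinAt
  have hnn : ∀ a b : ℝ, 0 ≤ᵐ[volume.restrict (Ioc a b)] fun x => ‖g2 x‖ + ‖g3 x‖ := fun a b =>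
    Filter.Eventually.of_forall fun x => by positivity
  have h1 : ∀ m ∈ Finset.Ico 4 M, SS m ≤ (∫ x in (m : ℝ)..((m + 1 : ℕ) : ℝ), (‖g2 x‖ + ‖g3 x‖)) +
      ∫ x in ((m + 1 : ℕ) : ℝ)..((m + 1 + 1 : ℕ) : ℝ), (‖g2 x‖ + ‖g3 x‖) := by
    intro m hm
    rw [Finset.mem_Ico] at hm
    have hm0 : (4 : ℝ) ≤ m := by exact_mod_cast hm.1
    obtain ⟨t, ht, he⟩ := SS_attained m (by omega)
    rw [he, intervalIntegral.integral_add_adjacent_intervals (hii _ _ (by linarith) (by push_cast; linarith))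
      (hii _ _ (by push_cast; linarith) (by push_cast; linarith))]
    have := sobolev m (by linarith) t ht
    have e : ((m + 1 + 1 : ℕ) : ℝ) = (m : ℝ) + 2 := by push_cast; ring
    rw [e]
    exact this
  refine (Finset.sum_le_sum h1).trans ?_
  rw [Finset.sum_add_distrib]
  have h2 : ∑ m ∈ Finset.Ico 4 M, (∫ x in (m : ℝ)..((m + 1 : ℕ) : ℝ), (‖g2 x‖ + ‖g3 x‖)) =
      ∫ x in ((4 : ℕ) : ℝ)..(M : ℝ), (‖g2 x‖ + ‖g3 x‖) := by
    refine intervalIntegral.sum_integral_adjacent_intervals_Ico (a := fun n : ℕ => (n : ℝ)) hM ?_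
    intro k hk
    have hk0 : (4 : ℝ) ≤ k := by exact_mod_cast hk.1
    exact hii _ _ (by linarith) (by push_cast; linarith)
  have h3 : ∑ m ∈ Finset.Ico 4 M, (∫ x in ((m + 1 : ℕ) : ℝ)..((m + 1 + 1 : ℕ) : ℝ), (‖g2 x‖ + ‖g3 x‖)) =
      ∫ x in ((4 + 1 : ℕ) : ℝ)..((M + 1 : ℕ) : ℝ), (‖g2 x‖ + ‖g3 x‖) := by
    refine intervalIntegral.sum_integral_adjacent_intervals_Ico (a := fun n : ℕ => ((n + 1 : ℕ) : ℝ)) hM ?_
    intro k hk
    have hk0 : (4 : ℝ) ≤ k := by exact_mod_cast hk.1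
    exact hii _ _ (by push_cast; linarith) (by push_cast; linarith)
  rw [h2, h3]
  have h4 : ∫ x in ((4 : ℕ) : ℝ)..(M : ℝ), (‖g2 x‖ + ‖g3 x‖) ≤
      ∫ x in (4 : ℝ)..((M : ℝ) + 1), (‖g2 x‖ + ‖g3 x‖) := by
    refine intervalIntegral.integral_mono_interval (by norm_num) (by push_cast; exact hM') (by linarith)
      (hnn _ _) (hii _ _ (by norm_num) (by linarith))
  have h5 : ∫ x in ((4 + 1 : ℕ) : ℝ)..((M + 1 : ℕ) : ℝ), (‖g2 x‖ + ‖g3 x‖) ≤
      ∫ x in (4 : ℝ)..((M : ℝ) + 1), (‖g2 x‖ + ‖g3 x‖) := by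
    refine intervalIntegral.integral_mono_interval (by norm_num) (by push_cast; linarith) (by push_cast; linarith)
      (hnn _ _) (hii _ _ (by norm_num) (by linarith))
  obtain ⟨k2, k3⟩ := h ((M : ℝ) + 1) (by linarith)
  have e0 : ∀ x : ℝ, ((x : ℂ) + ((0 : ℝ) : ℂ) * I) = (x : ℂ) := by intro x; simp
  simp only [e0] at k2 k3
  have h6 : ∫ x in (4 : ℝ)..((M : ℝ) + 1), (‖g2 x‖ + ‖g3 x‖) ≤ 2 * (C * ((M : ℝ) + 1) ^ (1 + ε)) := by
    rw [intervalIntegral.integral_add]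
    · have q2 : ∫ x in (4 : ℝ)..((M : ℝ) + 1), ‖g2 x‖ ≤ C * ((M : ℝ) + 1) ^ (1 + ε) := k2
      have q3 : ∫ x in (4 : ℝ)..((M : ℝ) + 1), ‖g3 x‖ ≤ C * ((M : ℝ) + 1) ^ (1 + ε) := k3
      linarith
    · refine ContinuousOn.intervalIntegrable fun x hx => ?_
      rw [uIcc_of_le (by linarith)] at hx
      exact (g2_cont x (by linarith [hx.1])).norm.continuousWithinAt
    · refine ContinuousOn.intervalIntegrable fun x hx => ?_
      rw [uIcc_of_le (by linarith)] at hx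
      exact (g3_cont x (by linarith [hx.1])).norm.continuousWithinAt
  have h7 : C * ((M : ℝ) + 1) ^ (1 + ε) ≤ C * 2 ^ (1 + ε) * (M : ℝ) ^ (1 + ε) := by
    rw [mul_assoc, ← Real.mul_rpow (by norm_num) (by linarith)]
    gcongr
    linarith
  linarith

end Pool.Agent.V8H35.LV
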